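import Mathlib
import Pool.Agent.HyperWeil.CharSum

set_option autoImplicit false

/-!
# First moment of the kernel of the smooth part: definitions and algebraic identities
-/

namespace Pool.Agent.C1M

open Finset Pool.Agent.HyperWeil

/-- The primes `≤ z` congruent to `± 1` modulo `8`. -/
def P8 (z : ℕ) : Finset ℕ := (Icc 1 z).filter (fun p => p.Prime ∧ (p % 8 = 1 ∨ p % 8 = 7))

lemma mem_P8 {z p : ℕ} : p ∈ P8 z ↔ p ≤ z ∧ p.Prime ∧ (p % 8 = 1 ∨ p % 8 = 7) := by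
  unfold P8
  rw [mem_filter, mem_Icc]
  constructor
  · rintro ⟨⟨_, h1⟩, h2⟩; exact ⟨h1, h2⟩
  · rintro ⟨h1, h2⟩; exact ⟨⟨h2.1.one_le, h1⟩, h2⟩

/-- The product of a finite set of numbers. -/
def pr (S : Finset ℕ) : ℕ := ∏ p ∈ S, p

/-- The weight `1/(2p+1)`. -/
noncomputable def cc (p : ℕ) : ℝ := 1 / (2 * (p : ℝ) + 1)

lemma cc_nonneg (p : ℕ) : 0 ≤ cc p := by unfold cc; positivity

lemma cc_pos (p : ℕ) : 0 < cc p := by unfold cc; positivity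

noncomputable def cw (S : Finset ℕ) : ℝ := ∏ p ∈ S, cc p

lemma cw_nonneg (S : Finset ℕ) : 0 ≤ cw S := Finset.prod_nonneg fun p _ => cc_nonneg p

/-- `∑_S (∏ S)⁻¹ E_u #ker (M₀(S) + diag u)`. -/
noncomputable def FM (z : ℕ) : ℝ :=
  ∑ S ∈ (P8 z).powerset, ((pr S : ℕ) : ℝ)⁻¹ * ((2 : ℝ) ^ S.card)⁻¹ *
    ∑ T ∈ S.powerset, ∏ q ∈ S \ T, (1 + (jacobiSym (pr T : ℕ) q : ℝ))

/-- The total mass `∑_S (∏ S)⁻¹`. -/
noncomputable def ZZ (z : ℕ) : ℝ := ∑ S ∈ (P8 z).powerset, ((pr S : ℕ) : ℝ)⁻¹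

noncomputable def GG (z : ℕ) : ℝ := ∏ p ∈ P8 z, (1 + 1 / (2 * (p : ℝ)))

noncomputable def QQ (z : ℕ) : ℝ := ∏ p ∈ P8 z, (1 + cc p)

/-- The Euler product with a character `χ : ℕ → ℤ`. -/
noncomputable def EP (z : ℕ) (D : ℤ) : ℝ := ∏ p ∈ P8 z, (1 + cc p * (psi D p : ℝ))

lemma ZZ_eq_prod (z : ℕ) : ZZ z = ∏ p ∈ P8 z, (1 + 1 / (p : ℝ)) := by
  rw [Finset.prod_one_add]
  unfold ZZ pr
  refine Finset.sum_congr rfl fun S _ => ?_
  rw [Nat.cast_prod, ← Finset.prod_inv_distrib]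
  exact Finset.prod_congr rfl fun p _ => (one_div _).symm

lemma GG_mul_QQ (z : ℕ) : GG z * QQ z = ZZ z := by
  rw [ZZ_eq_prod]
  unfold GG QQ cc
  rw [← Finset.prod_mul_distrib]
  refine Finset.prod_congr rfl fun p hp => ?_
  have : (0 : ℝ) < p := by exact_mod_cast (mem_P8.mp hp).2.1.pos
  field_simp
  ring

lemma GG_pos (z : ℕ) : 0 < GG z := Finset.prod_pos fun p _ => by positivity

lemma QQ_eq_sum (z : ℕ) : QQ z = ∑ T ∈ (P8 z).powerset, cw T := by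
  unfold QQ cw
  rw [Finset.prod_one_add]

lemma psi_pr (D : ℤ) (U : Finset ℕ) : psi D (pr U) = ∏ p ∈ U, psi D p := by
  unfold pr; rw [psi_prod]

lemma EP_eq_sum (z : ℕ) (D : ℤ) :
    EP z D = ∑ U ∈ (P8 z).powerset, cw U * (psi D (pr U) : ℝ) := by
  unfold EP
  rw [Finset.prod_one_add]
  refine Finset.sum_congr rfl fun U _ => ?_
  rw [Finset.prod_mul_distrib, psi_pr]
  push_cast
  rfl

lemma odd_of_mem_P8 {z p : ℕ} (hp : p ∈ P8 z) : p % 2 = 1 := by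
  have := (mem_P8.mp hp).2.2
  omega

lemma psi_eq_jac {z p : ℕ} (hp : p ∈ P8 z) (D : ℤ) : psi D p = jacobiSym D p := by
  unfold psi; rw [if_pos (odd_of_mem_P8 hp)]

lemma psi_pr_self {T : Finset ℕ} {p : ℕ} (hp : p.Prime) (hpT : p ∈ T) :
    psi (pr T : ℕ) p = 0 := by
  unfold psi
  split_ifs with h
  · rw [jacobiSym.eq_zero_iff]
    refine ⟨hp.ne_zero, ?_⟩
    have h1 : p ∣ pr T := Finset.dvd_prod_of_mem _ hpT
    rw [Int.gcd_natCast_natCast, Nat.gcd_eq_right h1]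
    exact hp.one_lt.ne'
  · rfl

/-- Splitting a double sum over `T ⊆ S ⊆ P`. -/
lemma sum_powerset_powerset {β : Type*} [AddCommMonoid β] (P : Finset ℕ)
    (f : Finset ℕ → Finset ℕ → β) :
    ∑ S ∈ P.powerset, ∑ T ∈ S.powerset, f S T
      = ∑ T ∈ P.powerset, ∑ R ∈ (P \ T).powerset, f (T ∪ R) T := by
  have h1 : ∑ S ∈ P.powerset, ∑ T ∈ S.powerset, f S T
      = ∑ T ∈ P.powerset, ∑ S ∈ P.powerset.filter (fun S => T ⊆ S), f S T := by
    refine Finset.sum_comm' ?_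
    intro S T
    simp only [mem_powerset, mem_filter]
    constructor
    · rintro ⟨h1, h2⟩; exact ⟨⟨h1, h2⟩, h2.trans h1⟩
    · rintro ⟨⟨h1, h2⟩, _⟩; exact ⟨h1, h2⟩
  rw [h1]
  refine Finset.sum_congr rfl fun T hT => ?_
  rw [mem_powerset] at hT
  refine Finset.sum_nbij' (fun S => S \ T) (fun R => T ∪ R) ?_ ?_ ?_ ?_ ?_
  · intro S hS
    rw [mem_filter, mem_powerset] at hS
    rw [mem_powerset]
    exact Finset.sdiff_subset_sdiff hS.1 (Finset.Subset.refl _)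
  · intro R hR
    rw [mem_powerset] at hR
    rw [mem_filter, mem_powerset]
    exact ⟨Finset.union_subset hT (hR.trans Finset.sdiff_subset), Finset.subset_union_left⟩
  · intro S hS
    rw [mem_filter] at hS
    exact Finset.union_sdiff_of_subset hS.2
  · intro R hR
    rw [mem_powerset] at hR
    rw [Finset.union_sdiff_cancel_left]
    rw [Finset.disjoint_left]
    intro x hx hxR
    exact (Finset.mem_sdiff.mp (hR hxR)).2 hx
  · intro S hS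
    rw [mem_filter] at hS
    rw [Finset.union_sdiff_of_subset hS.2]

/-- The identity with an arbitrary weight on the inner set. -/
lemma FM_eq_gen (z : ℕ) (h : Finset ℕ → ℝ) :
    ∑ S ∈ (P8 z).powerset, ((pr S : ℕ) : ℝ)⁻¹ * ((2 : ℝ) ^ S.card)⁻¹ *
      ∑ T ∈ S.powerset, h T * ∏ q ∈ S \ T, (1 + (jacobiSym (pr T : ℕ) q : ℝ))
      = GG z * ∑ T ∈ (P8 z).powerset, h T * (cw T * EP z (pr T : ℕ)) := by
  simp only [Finset.mul_sum]
  rw [sum_powerset_powerset]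
  refine Finset.sum_congr rfl fun T hT => ?_
  rw [mem_powerset] at hT
  have hdisj : ∀ R ∈ (P8 z \ T).powerset, Disjoint T R := by
    intro R hR
    rw [mem_powerset] at hR
    rw [Finset.disjoint_left]
    intro x hx hxR
    exact (Finset.mem_sdiff.mp (hR hxR)).2 hx
  have h1 : ∀ R ∈ (P8 z \ T).powerset,
      ((pr (T ∪ R) : ℕ) : ℝ)⁻¹ * ((2 : ℝ) ^ (T ∪ R).card)⁻¹ *
        (h T * ∏ q ∈ (T ∪ R) \ T, (1 + (jacobiSym (pr T : ℕ) q : ℝ)))
      = (h T * ∏ p ∈ T, (1 / (2 * (p : ℝ)))) *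
        ∏ p ∈ R, (1 / (2 * (p : ℝ)) * (1 + (psi (pr T : ℕ) p : ℝ))) := by
    intro R hR
    have hd := hdisj R hR
    rw [Finset.union_sdiff_cancel_left hd]
    have h2 : ((pr (T ∪ R) : ℕ) : ℝ)⁻¹ * ((2 : ℝ) ^ (T ∪ R).card)⁻¹
        = ∏ p ∈ T ∪ R, (1 / (2 * (p : ℝ))) := by
      unfold pr
      rw [Nat.cast_prod, ← Finset.prod_inv_distrib, ← Finset.prod_const, ← Finset.prod_inv_distrib,
        ← Finset.prod_mul_distrib]
      refine Finset.prod_congr rfl fun p _ => ?_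
      rw [one_div, mul_inv]; ring
    rw [h2, Finset.prod_union hd]
    have h3 : ∏ q ∈ R, (1 + (jacobiSym (pr T : ℕ) q : ℝ)) = ∏ q ∈ R, (1 + (psi (pr T : ℕ) q : ℝ)) := by
      refine Finset.prod_congr rfl fun p hp => ?_
      rw [mem_powerset] at hR
      rw [psi_eq_jac (z := z) (Finset.mem_sdiff.mp (hR hp)).1]
    rw [h3, Finset.prod_mul_distrib (s := R)]
    ring
  rw [Finset.sum_congr rfl h1, ← Finset.mul_sum, ← Finset.prod_one_add]
  unfold GG EP cw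
  have h3 : ∀ f : ℕ → ℝ, ∏ p ∈ P8 z, f p = (∏ p ∈ T, f p) * ∏ p ∈ P8 z \ T, f p := by
    intro f
    rw [mul_comm, Finset.prod_sdiff hT]
  rw [h3 (fun p => 1 + 1 / (2 * (p : ℝ))), h3 (fun p => 1 + cc p * (psi (pr T : ℕ) p : ℝ))]
  have h4 : ∏ p ∈ T, (1 + cc p * (psi (pr T : ℕ) p : ℝ)) = 1 := by
    refine Finset.prod_eq_one fun p hp => ?_
    rw [psi_pr_self (mem_P8.mp (hT hp)).2.1 hp]
    simp
  rw [h4, one_mul]
  have h5 : (∏ p ∈ T, (1 / (2 * (p : ℝ)))) = (∏ p ∈ T, (1 + 1 / (2 * (p : ℝ)))) * ∏ p ∈ T, cc p := by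
    rw [← Finset.prod_mul_distrib]
    refine Finset.prod_congr rfl fun p hp => ?_
    have : (0 : ℝ) < p := by exact_mod_cast (mem_P8.mp (hT hp)).2.1.pos
    unfold cc
    field_simp
  have h6 : ∏ p ∈ P8 z \ T, (1 + 1 / (2 * (p : ℝ)) * (1 + (psi (pr T : ℕ) p : ℝ)))
      = (∏ p ∈ P8 z \ T, (1 + 1 / (2 * (p : ℝ)))) *
        ∏ p ∈ P8 z \ T, (1 + cc p * (psi (pr T : ℕ) p : ℝ)) := by
    rw [← Finset.prod_mul_distrib]
    refine Finset.prod_congr rfl fun p hp => ?_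
    have : (0 : ℝ) < p := by exact_mod_cast (mem_P8.mp (Finset.mem_sdiff.mp hp).1).2.1.pos
    unfold cc
    field_simp
    ring
  rw [h5, h6]
  ring

lemma FM_eq (z : ℕ) : FM z = GG z * ∑ T ∈ (P8 z).powerset, cw T * EP z (pr T : ℕ) := by
  have h := FM_eq_gen z (fun _ => 1)
  simp only [one_mul] at h
  unfold FM
  exact h

end Pool.Agent.C1M
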