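import Mathlib
import Pool.Agent.HyperWeil.CharSum
import Pool.Agent.PnMn.SumInv
import Pool.Agent.C1M.FM1

set_option autoImplicit false

/-!
# Upper bound for `∑_{p ≤ z} χ(p)/p`, `χ` a real character: a finite argument
-/

namespace Pool.Agent.C1M

open Finset Pool.Agent.HyperWeil ArithmeticFunction

/-- Primes up to `z`. -/
def PR (z : ℕ) : Finset ℕ := (Icc 1 z).filter Nat.Prime

lemma mem_PR {z p : ℕ} : p ∈ PR z ↔ p ≤ z ∧ p.Prime := by
  unfold PR
  rw [mem_filter, mem_Icc]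
  constructor
  · rintro ⟨⟨_, h1⟩, h2⟩; exact ⟨h1, h2⟩
  · rintro ⟨h1, h2⟩; exact ⟨⟨h2.one_le, h1⟩, h2⟩

/-- Abel's inequality. -/
lemma abel_ineq {c f : ℕ → ℝ} {B : ℝ} (hf : Antitone f) (h0 : ∀ n, 0 ≤ f n)
    (hB : ∀ n, |∑ i ∈ range n, c i| ≤ B) (n : ℕ) :
    |∑ i ∈ range n, c i * f i| ≤ B * f 0 := by
  have hB0 : 0 ≤ B := (abs_nonneg _).trans (hB 0)
  have h1 : ∀ n : ℕ, ∑ i ∈ range n, c i * f i = f n * (∑ i ∈ range n, c i) +
      ∑ i ∈ range n, (f i - f (i + 1)) * (∑ j ∈ range (i + 1), c j) := by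
    intro n
    induction n with
    | zero => simp
    | succ n ih =>
      rw [Finset.sum_range_succ, ih, Finset.sum_range_succ (fun i => (f i - f (i + 1)) * _),
        Finset.sum_range_succ c]
      ring
  have h2 : ∀ n : ℕ, f n + ∑ i ∈ range n, (f i - f (i + 1)) = f 0 := by
    intro n
    rw [Finset.sum_range_sub']
    ring
  rw [h1 n]
  calc |f n * (∑ i ∈ range n, c i) + ∑ i ∈ range n, (f i - f (i + 1)) * (∑ j ∈ range (i + 1), c j)|
      ≤ |f n * (∑ i ∈ range n, c i)| +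
        ∑ i ∈ range n, |(f i - f (i + 1)) * (∑ j ∈ range (i + 1), c j)| :=
        (abs_add_le _ _).trans (add_le_add_right (Finset.abs_sum_le_sum_abs _ _) _)
    _ ≤ f n * B + ∑ i ∈ range n, (f i - f (i + 1)) * B := by
        refine add_le_add ?_ (Finset.sum_le_sum fun i _ => ?_)
        · rw [abs_mul, abs_of_nonneg (h0 n)]
          exact mul_le_mul_of_nonneg_left (hB n) (h0 n)
        · have h3 : 0 ≤ f i - f (i + 1) := sub_nonneg.mpr (hf (Nat.le_succ i))
          rw [abs_mul, abs_of_nonneg h3]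
          exact mul_le_mul_of_nonneg_left (hB _) h3
    _ = B * f 0 := by
        rw [← Finset.sum_mul, ← add_mul, h2, mul_comm]

/-- The harmonic sums. -/
noncomputable def Hm (m : ℕ) : ℝ := ∑ j ∈ Ioc 0 m, 1 / (j : ℝ)

lemma Hm_nonneg (m : ℕ) : 0 ≤ Hm m := Finset.sum_nonneg fun j _ => by positivity

lemma Hm_mono {a b : ℕ} (h : a ≤ b) : Hm a ≤ Hm b :=
  Finset.sum_le_sum_of_subset_of_nonneg (Finset.Ioc_subset_Ioc_right h) fun j _ _ => by positivity

lemma Hm_le (m : ℕ) : Hm m ≤ 1 + Real.log m := by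
  have h := harmonic_le_one_add_log m
  have h2 : ((harmonic m : ℚ) : ℝ) = Hm m := by
    rw [harmonic_eq_sum_Icc]
    push_cast
    unfold Hm
    refine Finset.sum_congr ?_ fun j _ => (one_div _).symm
    ext j; simp [Finset.mem_Icc, Finset.mem_Ioc]; omega
  rw [← h2]; exact h

/-- The divisor sums of the character. -/
noncomputable def chiA (D : ℤ) : ArithmeticFunction ℤ :=
  ⟨fun n => if n = 0 then 0 else psi D n, by simp⟩

lemma chiA_apply {D : ℤ} {n : ℕ} (hn : n ≠ 0) : chiA D n = psi D n := by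
  change (if n = 0 then 0 else psi D n) = _
  rw [if_neg hn]

lemma chiA_mult (D : ℤ) : (chiA D).IsMultiplicative := by
  refine ⟨?_, ?_⟩
  · rw [chiA_apply one_ne_zero, psi_one]
  · intro m n _
    by_cases hm : m = 0
    · subst hm; simp
    by_cases hn : n = 0
    · subst hn; simp
    rw [chiA_apply (mul_ne_zero hm hn), chiA_apply hm, chiA_apply hn, psi_mul_right]

noncomputable def rA (D : ℤ) : ArithmeticFunction ℤ := chiA D * (zeta : ArithmeticFunction ℤ)

lemma rA_mult (D : ℤ) : (rA D).IsMultiplicative :=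
  (chiA_mult D).mul isMultiplicative_zeta.natCast

lemma psi_pow (D : ℤ) (p i : ℕ) : psi D (p ^ i) = (psi D p) ^ i := by
  induction i with
  | zero => simp [psi_one]
  | succ i ih => rw [pow_succ, psi_mul_right, ih, pow_succ]

lemma rA_prime_pow (D : ℤ) {p k : ℕ} (hp : p.Prime) :
    rA D (p ^ k) = ∑ i ∈ range (k + 1), (psi D p) ^ i := by
  unfold rA
  rw [coe_mul_zeta_apply, Nat.sum_divisors_prime_pow hp]
  refine Finset.sum_congr rfl fun i _ => ?_
  rw [chiA_apply (pow_ne_zero _ hp.ne_zero)]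
  exact psi_pow D p i

lemma rA_prime (D : ℤ) {p : ℕ} (hp : p.Prime) : rA D p = 1 + psi D p := by
  have := rA_prime_pow D (k := 1) hp
  rw [pow_one] at this
  rw [this]
  simp [Finset.sum_range_succ]

lemma rA_prime_pow_nonneg (D : ℤ) {p k : ℕ} (hp : p.Prime) : 0 ≤ rA D (p ^ k) := by
  rw [rA_prime_pow D hp]
  rcases psi_trichotomy D p with h | h | h
  · rw [h]
    exact Finset.sum_nonneg fun i _ => by positivity
  · rw [h]
    exact Finset.sum_nonneg fun i _ => by positivity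
  · rw [h]
    have : ∀ k : ℕ, ∑ i ∈ range k, (-1 : ℤ) ^ i = if Even k then 0 else 1 := by
      intro k
      induction k with
      | zero => simp
      | succ k ih =>
        rw [Finset.sum_range_succ, ih]
        by_cases hk : Even k
        · rw [if_pos hk, if_neg (by rw [Nat.not_even_iff_odd]; exact hk.add_one), hk.neg_one_pow]
          ring
        · rw [if_neg hk, if_pos (by rw [Nat.not_even_iff_odd] at hk; exact hk.add_one),
            (Nat.not_even_iff_odd.mp hk).neg_one_pow]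
          ring
    rw [this]
    split_ifs <;> norm_num

lemma rA_nonneg (D : ℤ) (n : ℕ) : 0 ≤ rA D n := by
  by_cases hn : n = 0
  · subst hn; simp
  rw [(rA_mult D).multiplicative_factorization _ hn]
  unfold Finsupp.prod
  refine Finset.prod_nonneg fun p hp => ?_
  exact rA_prime_pow_nonneg D (Nat.prime_of_mem_primeFactors (by simpa using hp))

lemma rA_pr (D : ℤ) {S : Finset ℕ} (hS : ∀ p ∈ S, p.Prime) :
    rA D (pr S) = ∏ p ∈ S, (1 + psi D p) := by
  unfold pr
  rw [(rA_mult D).map_prod_of_prime S hS]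
  exact Finset.prod_congr rfl fun p hp => rA_prime D (hS p hp)

/-- `∑_{n ≤ x} r(n)/n`. -/
noncomputable def SR (D : ℤ) (x : ℕ) : ℝ := ∑ n ∈ Ioc 0 x, (rA D n : ℝ) / n

lemma SR_eq (D : ℤ) (x : ℕ) :
    SR D x = ∑ d ∈ Ioc 0 x, (psi D d : ℝ) / d * Hm (x / d) := by
  set f : ArithmeticFunction ℝ := ⟨fun n => if n = 0 then 0 else (psi D n : ℝ) / n, by simp⟩ with hf
  set g : ArithmeticFunction ℝ := ⟨fun n => if n = 0 then 0 else 1 / (n : ℝ), by simp⟩ with hg
  have hfa : ∀ n : ℕ, n ≠ 0 → f n = (psi D n : ℝ) / n := fun n hn => if_neg hn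
  have hga : ∀ n : ℕ, n ≠ 0 → g n = 1 / (n : ℝ) := fun n hn => if_neg hn
  have h := sum_Ioc_mul_eq_sum_sum f g x
  have h1 : ∑ n ∈ Ioc 0 x, (f * g) n = SR D x := by
    unfold SR
    refine Finset.sum_congr rfl fun n hn => ?_
    rw [mem_Ioc] at hn
    rw [mul_apply]
    unfold rA
    rw [coe_mul_zeta_apply, ← Nat.sum_divisorsAntidiagonal (fun i _ => chiA D i)]
    push_cast
    rw [Finset.sum_div]
    refine Finset.sum_congr rfl fun y hy => ?_
    rw [Nat.mem_divisorsAntidiagonal] at hy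
    have hy1 : y.1 ≠ 0 := by rintro h0; rw [h0, zero_mul] at hy; exact hy.2 hy.1.symm
    have hy2 : y.2 ≠ 0 := by rintro h0; rw [h0, mul_zero] at hy; exact hy.2 hy.1.symm
    rw [hfa _ hy1, hga _ hy2, chiA_apply hy1, ← hy.1]
    push_cast
    have h3 : (y.1 : ℝ) ≠ 0 := by exact_mod_cast hy1
    have h4 : (y.2 : ℝ) ≠ 0 := by exact_mod_cast hy2
    field_simp
  rw [← h1, h]
  refine Finset.sum_congr rfl fun d hd => ?_
  rw [mem_Ioc] at hd
  rw [hfa d (by omega)]
  congr 1
  unfold Hm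
  refine Finset.sum_congr rfl fun m hm => ?_
  rw [mem_Ioc] at hm
  exact hga m (by omega)

lemma SR_le {D : ℤ} (hD : D ≠ 0) (hsq : ¬ IsSquare D) {x : ℕ} (hx : 1 ≤ x) :
    SR D x ≤ (1 + Real.log x) * (3 + Real.log (4 * D.natAbs : ℕ)) := by
  set q : ℕ := 4 * D.natAbs with hq
  have hq1 : 1 ≤ q := by
    have := Int.natAbs_pos.mpr hD
    omega
  rw [SR_eq]
  have habs : ∀ d : ℕ, |(psi D d : ℝ)| ≤ 1 := fun d => by
    rw [← Int.cast_abs]; exact_mod_cast abs_psi_le D d
  have hHx : Hm x ≤ 1 + Real.log x := Hm_le x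
  have hHx0 : 0 ≤ Hm x := Hm_nonneg x
  -- trivial bound for an initial segment
  have htriv : ∀ y : ℕ, y ≤ x → ∑ d ∈ Ioc 0 y, (psi D d : ℝ) / d * Hm (x / d) ≤ Hm y * Hm x := by
    intro y _
    unfold Hm
    rw [Finset.sum_mul]
    refine Finset.sum_le_sum fun d hd => ?_
    rw [mem_Ioc] at hd
    have hd0 : (0 : ℝ) < d := by exact_mod_cast hd.1
    have h1 : (psi D d : ℝ) / d ≤ 1 / d := by
      gcongr
      exact (abs_le.mp (habs d)).2
    have h2 : Hm (x / d) ≤ Hm x := Hm_mono (Nat.div_le_self _ _)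
    have h3 : 0 ≤ Hm (x / d) := Hm_nonneg _
    calc (psi D d : ℝ) / d * Hm (x / d) ≤ 1 / d * Hm (x / d) := by gcongr
      _ ≤ 1 / d * Hm x := by gcongr
  have hlogq : Hm q ≤ 1 + Real.log q := Hm_le q
  have hlq0 : 0 ≤ Real.log q := Real.log_natCast_nonneg q
  have hlx0 : 0 ≤ Real.log x := Real.log_natCast_nonneg x
  by_cases hxq : x ≤ q
  · calc ∑ d ∈ Ioc 0 x, (psi D d : ℝ) / d * Hm (x / d) ≤ Hm x * Hm x := htriv x le_rfl
      _ ≤ Hm x * Hm q := mul_le_mul_of_nonneg_left (Hm_mono hxq) hHx0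
      _ ≤ (1 + Real.log x) * (3 + Real.log q) := by
          apply mul_le_mul hHx (by linarith) (Hm_nonneg q) (by linarith)
  · push Not at hxq
    have hsplit : ∑ d ∈ Ioc 0 x, (psi D d : ℝ) / d * Hm (x / d)
        = ∑ d ∈ Ioc 0 q, (psi D d : ℝ) / d * Hm (x / d) +
          ∑ d ∈ Ioc q x, (psi D d : ℝ) / d * Hm (x / d) := by
      rw [Finset.sum_Ioc_consecutive _ (Nat.zero_le q) hxq.le]
    have h2 : |∑ d ∈ Ioc q x, (psi D d : ℝ) / d * Hm (x / d)| ≤ (2 * q : ℝ) * (Hm x / (q + 1)) := by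
      have e1 : ∑ d ∈ Ioc q x, (psi D d : ℝ) / d * Hm (x / d)
          = ∑ i ∈ range (x - q), (psi D (q + 1 + i) : ℝ) *
            (Hm (x / (q + 1 + i)) / ((q + 1 + i : ℕ) : ℝ)) := by
        have : Ioc q x = Ico (q + 1) (x + 1) := by
          ext d
          rw [mem_Ioc, mem_Ico]
          omega
        rw [this, Finset.sum_Ico_eq_sum_range]
        have : x + 1 - (q + 1) = x - q := by omega
        rw [this]
        refine Finset.sum_congr rfl fun i _ => ?_
        ring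
      rw [e1]
      have hanti : Antitone fun i : ℕ => Hm (x / (q + 1 + i)) / ((q + 1 + i : ℕ) : ℝ) := by
        intro i j hij
        simp only
        have h3 : Hm (x / (q + 1 + j)) ≤ Hm (x / (q + 1 + i)) :=
          Hm_mono (Nat.div_le_div_left (by omega) (by omega))
        have h4 : ((q + 1 + i : ℕ) : ℝ) ≤ ((q + 1 + j : ℕ) : ℝ) := by
          exact_mod_cast (show q + 1 + i ≤ q + 1 + j by omega)
        have h5 : (0 : ℝ) < ((q + 1 + i : ℕ) : ℝ) := by
          exact_mod_cast (show 0 < q + 1 + i by omega)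
        exact div_le_div₀ (Hm_nonneg _) h3 h5 h4
      have hB : ∀ n, |∑ i ∈ range n, (psi D (q + 1 + i) : ℝ)| ≤ 2 * (q : ℝ) := by
        intro n
        have e2 : ∑ i ∈ range n, psi D (q + 1 + i)
            = ∑ i ∈ range (q + 1 + n), psi D i - ∑ i ∈ range (q + 1), psi D i := by
          rw [Finset.sum_range_add]; ring
        have e3 : |∑ i ∈ range n, psi D (q + 1 + i)| ≤ 2 * (q : ℤ) := by
          rw [e2]
          have a1 := abs_sum_psi_le hD hsq (q + 1 + n)
          have a2 := abs_sum_psi_le hD hsq (q + 1)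
          have a3 : (q : ℤ) = 4 * (D.natAbs : ℤ) := by rw [hq]; push_cast; ring
          rw [a3]
          calc |∑ i ∈ range (q + 1 + n), psi D i - ∑ i ∈ range (q + 1), psi D i|
              ≤ |∑ i ∈ range (q + 1 + n), psi D i| + |∑ i ∈ range (q + 1), psi D i| := abs_sub _ _
            _ ≤ _ := by linarith
        have e4 : ((∑ i ∈ range n, psi D (q + 1 + i) : ℤ) : ℝ)
            = ∑ i ∈ range n, (psi D (q + 1 + i) : ℝ) := by push_cast; rfl
        rw [← e4, ← Int.cast_abs]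
        exact_mod_cast e3
      have h6 := abel_ineq hanti (fun i => div_nonneg (Hm_nonneg _) (Nat.cast_nonneg _)) hB (x - q)
      refine h6.trans ?_
      have h7 : Hm (x / (q + 1 + 0)) / ((q + 1 + 0 : ℕ) : ℝ) ≤ Hm x / (q + 1) := by
        have e5 : ((q + 1 + 0 : ℕ) : ℝ) = (q : ℝ) + 1 := by push_cast; ring
        rw [e5]
        exact div_le_div_of_nonneg_right (Hm_mono (Nat.div_le_self _ _)) (by positivity)
      exact mul_le_mul_of_nonneg_left h7 (by positivity)
    have h3 : (2 * q : ℝ) * (Hm x / (q + 1)) ≤ 2 * Hm x := by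
      have hq0 : (0 : ℝ) < (q : ℝ) + 1 := by positivity
      rw [mul_div_assoc', div_le_iff₀ hq0]
      nlinarith
    rw [hsplit]
    have h4 := htriv q hxq.le
    have h5 := (abs_le.mp h2).2
    calc _ ≤ Hm q * Hm x + 2 * Hm x := by linarith
      _ = Hm x * (Hm q + 2) := by ring
      _ ≤ (1 + Real.log x) * (3 + Real.log q) := by
          apply mul_le_mul hHx (by linarith) (by have := Hm_nonneg q; linarith) (by linarith)

end Pool.Agent.C1M
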