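import Mathlib
import Pool.Agent.C1M.FM2

set_option autoImplicit false

/-!
# Upper bound for `∑_{p ≤ z} χ(p)/p`, part 2: Rankin's trick
-/

namespace Pool.Agent.C1M

open Finset Pool.Agent.HyperWeil ArithmeticFunction

/-- Rankin's trick for subset sums. -/
lemma rankin {P : Finset ℕ} {b : ℕ → ℝ} (hb : ∀ p ∈ P, 0 ≤ b p)
    {σ Y : ℝ} (hσ : 0 ≤ σ) (hY : 0 < Y) :
    ∑ S ∈ P.powerset.filter (fun S => Y < ((pr S : ℕ) : ℝ)), ∏ p ∈ S, b p
      ≤ Y ^ (-σ) * ∏ p ∈ P, (1 + b p * (p : ℝ) ^ σ) := by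
  rw [Finset.prod_one_add, Finset.mul_sum]
  refine (Finset.sum_le_sum (g := fun S => Y ^ (-σ) * ∏ p ∈ S, (b p * (p : ℝ) ^ σ)) ?_).trans ?_
  · intro S hS
    rw [mem_filter, mem_powerset] at hS
    obtain ⟨hSP, hSY⟩ := hS
    have h0 : 0 ≤ ∏ p ∈ S, b p := Finset.prod_nonneg fun p hp => hb p (hSP hp)
    have h1 : ∏ p ∈ S, (b p * (p : ℝ) ^ σ) = (∏ p ∈ S, b p) * ((pr S : ℕ) : ℝ) ^ σ := by
      rw [Finset.prod_mul_distrib]
      congr 1
      unfold pr
      rw [Nat.cast_prod, Real.finsetProd_rpow]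
      intro p _
      exact Nat.cast_nonneg _
    rw [h1]
    have h2 : (1 : ℝ) ≤ Y ^ (-σ) * ((pr S : ℕ) : ℝ) ^ σ := by
      rw [Real.rpow_neg hY.le, ← div_eq_inv_mul, le_div_iff₀ (Real.rpow_pos_of_pos hY σ), one_mul]
      exact Real.rpow_le_rpow hY.le hSY.le hσ
    calc ∏ p ∈ S, b p = (∏ p ∈ S, b p) * 1 := (mul_one _).symm
      _ ≤ (∏ p ∈ S, b p) * (Y ^ (-σ) * ((pr S : ℕ) : ℝ) ^ σ) := mul_le_mul_of_nonneg_left h2 h0
      _ = _ := by ring
  · refine Finset.sum_le_sum_of_subset_of_nonneg (Finset.filter_subset _ _) fun S hS _ => ?_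
    rw [mem_powerset] at hS
    refine mul_nonneg (Real.rpow_nonneg hY.le _) (Finset.prod_nonneg fun p hp => ?_)
    exact mul_nonneg (hb p (hS hp)) (Real.rpow_nonneg (Nat.cast_nonneg _) _)

lemma exp_le_two {t : ℝ} (h0 : 0 ≤ t) (h1 : t ≤ 1) : Real.exp t ≤ 1 + 2 * t := by
  have h := Real.abs_exp_sub_one_le (x := t) (by rw [abs_of_nonneg h0]; exact h1)
  rw [abs_of_nonneg h0] at h
  linarith [(abs_le.mp h).2]

/-- `p^σ ≤ 1 + 2 σ log p` for `p ≤ z`, `σ = 1/log z`. -/
lemma rpow_le_one_add {z p : ℕ} (hz : 3 ≤ z) (hp1 : 1 ≤ p) (hpz : p ≤ z) :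
    (p : ℝ) ^ (1 / Real.log z) ≤ 1 + 2 * (Real.log p / Real.log z) := by
  have hlz : 0 < Real.log z := Real.log_pos (by exact_mod_cast (by omega : 1 < z))
  have hp0 : (0 : ℝ) < p := by exact_mod_cast hp1
  have hlp : 0 ≤ Real.log p := Real.log_natCast_nonneg p
  rw [Real.rpow_def_of_pos hp0]
  have e : Real.log p * (1 / Real.log z) = Real.log p / Real.log z := by ring
  rw [e]
  refine exp_le_two (div_nonneg hlp hlz.le) ?_
  rw [div_le_one hlz]
  exact Real.log_le_log hp0 (by exact_mod_cast hpz)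

lemma one_le_log {z : ℕ} (hz : 3 ≤ z) : 1 ≤ Real.log z := by
  rw [Real.le_log_iff_exp_le (by positivity)]
  have h1 := Real.exp_one_lt_d9
  have h2 : (3 : ℝ) ≤ z := by exact_mod_cast hz
  linarith

/-- Comparison of Euler products. -/
lemma prod_rpow_le {z : ℕ} (hz : 3 ≤ z) {b : ℕ → ℝ} {β : ℝ} (hβ : 0 ≤ β) {P : Finset ℕ} (hP : P ⊆ PR z)
    (hb : ∀ p ∈ P, 0 ≤ b p) (hb2 : ∀ p ∈ P, b p ≤ β / p) :
    ∏ p ∈ P, (1 + b p * (p : ℝ) ^ (1 / Real.log z)) ≤ Real.exp (5 * β) * ∏ p ∈ P, (1 + b p) := by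
  have hlz := one_le_log hz
  have hlz0 : 0 < Real.log z := by linarith
  have h1 : ∀ p ∈ P, 1 + b p * (p : ℝ) ^ (1 / Real.log z)
      ≤ (1 + b p) * Real.exp (2 * β / Real.log z * (Real.log p / p)) := by
    intro p hp
    obtain ⟨hpz, hpp⟩ := mem_PR.mp (hP hp)
    have hp0 : (0 : ℝ) < p := by exact_mod_cast hpp.pos
    have h2 := rpow_le_one_add hz hpp.one_le hpz
    have h3 := hb p hp
    have h4 := hb2 p hp
    have hlp : 0 ≤ Real.log p := Real.log_natCast_nonneg p
    set t := 2 * β / Real.log z * (Real.log p / p) with ht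
    have ht0 : 0 ≤ t := by positivity
    have h5 : t + 1 ≤ Real.exp t := Real.add_one_le_exp t
    have h6 : b p * (2 * (Real.log p / Real.log z)) ≤ t := by
      calc b p * (2 * (Real.log p / Real.log z)) ≤ β / p * (2 * (Real.log p / Real.log z)) :=
            mul_le_mul_of_nonneg_right h4 (by positivity)
        _ = t := by rw [ht]; ring
    calc 1 + b p * (p : ℝ) ^ (1 / Real.log z) ≤ 1 + b p * (1 + 2 * (Real.log p / Real.log z)) := by
          gcongr
      _ = 1 + b p + b p * (2 * (Real.log p / Real.log z)) := by ring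
      _ ≤ 1 + b p + t := by linarith
      _ ≤ (1 + b p) * (t + 1) := by nlinarith
      _ ≤ (1 + b p) * Real.exp t := by gcongr
  have h1' : ∀ p ∈ P, 0 ≤ 1 + b p * (p : ℝ) ^ (1 / Real.log z) := fun p hp => by
    have := mul_nonneg (hb p hp) (Real.rpow_nonneg (Nat.cast_nonneg p) (1 / Real.log z))
    linarith
  refine (Finset.prod_le_prod h1' h1).trans ?_
  rw [Finset.prod_mul_distrib, ← Real.exp_sum, ← Finset.mul_sum, mul_comm]
  have h7 : ∑ p ∈ P, Real.log p / p ≤ Real.log z + Real.log 4 := by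
    refine (Finset.sum_le_sum_of_subset_of_nonneg hP fun p _ _ => ?_).trans
      (PnMn.sum_log_div_le z (by omega))
    exact div_nonneg (Real.log_natCast_nonneg p) (Nat.cast_nonneg _)
  have h8 : 0 ≤ ∏ p ∈ P, (1 + b p) := Finset.prod_nonneg fun p hp => by
    have := hb p hp; linarith
  refine mul_le_mul_of_nonneg_right ?_ h8
  rw [Real.exp_le_exp]
  have hlog4 : Real.log 4 ≤ 1.5 := by
    have e : Real.log 4 = 2 * Real.log 2 := by
      rw [show (4 : ℝ) = 2 ^ 2 by norm_num, Real.log_pow]; norm_num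
    have := Real.log_two_lt_d9
    rw [e]; linarith
  calc 2 * β / Real.log z * ∑ p ∈ P, Real.log p / p
      ≤ 2 * β / Real.log z * (Real.log z + Real.log 4) :=
        mul_le_mul_of_nonneg_left h7 (by positivity)
    _ = 2 * β + 2 * β * (Real.log 4 / Real.log z) := by field_simp
    _ ≤ 2 * β + 2 * β * 1.5 := by
        gcongr
        rw [div_le_iff₀ hlz0]
        nlinarith
    _ = 5 * β := by ring

/-- The local factor. -/
noncomputable def bb (D : ℤ) (p : ℕ) : ℝ := (1 + (psi D p : ℝ)) / p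

lemma bb_nonneg (D : ℤ) (p : ℕ) : 0 ≤ bb D p := by
  unfold bb
  have : (-1 : ℝ) ≤ (psi D p : ℝ) := by
    have := (abs_le.mp (abs_psi_le D p)).1
    exact_mod_cast this
  exact div_nonneg (by linarith) (Nat.cast_nonneg _)

lemma bb_le (D : ℤ) (p : ℕ) : bb D p ≤ 2 / p := by
  unfold bb
  have : (psi D p : ℝ) ≤ 1 := by
    have := (abs_le.mp (abs_psi_le D p)).2
    exact_mod_cast this
  gcongr
  linarith

lemma pr_pos {S : Finset ℕ} (hS : ∀ p ∈ S, p.Prime) : 0 < pr S :=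
  Finset.prod_pos fun p hp => (hS p hp).pos

/-- A finite set of primes is determined by its product. -/
lemma pr_injOn {S T : Finset ℕ} (hS : ∀ p ∈ S, p.Prime) (hT : ∀ p ∈ T, p.Prime)
    (h : pr S = pr T) : S = T := by
  have key : ∀ U : Finset ℕ, (∀ p ∈ U, p.Prime) → (pr U).primeFactors = U := by
    intro U hU
    ext p
    rw [Nat.mem_primeFactors]
    constructor
    · rintro ⟨hp, hd, _⟩
      obtain ⟨a, ha, hpa⟩ := (Prime.dvd_finsetProd_iff hp.prime _).mp hd
      have := (Nat.prime_dvd_prime_iff_eq hp (hU a ha)).mp hpa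
      rw [this]; exact ha
    · intro hp
      exact ⟨hU p hp, Finset.dvd_prod_of_mem _ hp, (pr_pos hU).ne'⟩
  rw [← key S hS, ← key T hT, h]

lemma half_prod_le {D : ℤ} {z : ℕ} (hz : 3 ≤ z) :
    (∏ p ∈ PR z, (1 + bb D p)) / 2 ≤ SR D (z ^ 12) := by
  set P := PR z with hP
  set x := z ^ 12 with hx
  have hlz := one_le_log hz
  have hlz0 : 0 < Real.log z := by linarith
  have hz0 : (0 : ℝ) < z := by positivity
  have hx0 : (0 : ℝ) < (x : ℝ) := by rw [hx]; push_cast; positivity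
  have hPp : ∀ S ∈ P.powerset, ∀ p ∈ S, p.Prime := fun S hS p hp =>
    (mem_PR.mp (mem_powerset.mp hS hp)).2
  -- full product as a sum
  have h1 : ∏ p ∈ P, (1 + bb D p) = ∑ S ∈ P.powerset, ∏ p ∈ S, bb D p := Finset.prod_one_add _
  have h2 : ∑ S ∈ P.powerset, ∏ p ∈ S, bb D p
      = ∑ S ∈ P.powerset.filter (fun S => (x : ℝ) < ((pr S : ℕ) : ℝ)), ∏ p ∈ S, bb D p +
        ∑ S ∈ P.powerset.filter (fun S => ¬ (x : ℝ) < ((pr S : ℕ) : ℝ)), ∏ p ∈ S, bb D p :=
    (Finset.sum_filter_add_sum_filter_not _ _ _).symm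
  -- the tail
  have h3 := rankin (P := P) (b := bb D) (fun p _ => bb_nonneg D p) (σ := 1 / Real.log z) (by positivity) hx0
  have h4 := prod_rpow_le hz (b := bb D) (β := 2) (by norm_num) (Finset.Subset.refl P)
    (fun p _ => bb_nonneg D p) (fun p _ => bb_le D p)
  have h5 : (x : ℝ) ^ (-(1 / Real.log z)) = Real.exp (-12) := by
    rw [Real.rpow_def_of_pos hx0, hx]
    push_cast
    rw [Real.log_pow]
    congr 1
    push_cast
    field_simp
  have hPi : 0 ≤ ∏ p ∈ P, (1 + bb D p) := Finset.prod_nonneg fun p _ => by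
    have := bb_nonneg D p; linarith
  have h6 : ∑ S ∈ P.powerset.filter (fun S => (x : ℝ) < ((pr S : ℕ) : ℝ)), ∏ p ∈ S, bb D p
      ≤ (∏ p ∈ P, (1 + bb D p)) / 2 := by
    refine h3.trans ?_
    rw [h5]
    calc Real.exp (-12) * ∏ p ∈ P, (1 + bb D p * (p : ℝ) ^ (1 / Real.log z))
        ≤ Real.exp (-12) * (Real.exp (5 * 2) * ∏ p ∈ P, (1 + bb D p)) :=
          mul_le_mul_of_nonneg_left h4 (Real.exp_pos _).le
      _ = Real.exp (-2) * ∏ p ∈ P, (1 + bb D p) := by
          rw [← mul_assoc, ← Real.exp_add]; norm_num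
      _ ≤ (1 / 2) * ∏ p ∈ P, (1 + bb D p) := by
          refine mul_le_mul_of_nonneg_right ?_ hPi
          rw [Real.exp_neg, ← one_div]
          apply one_div_le_one_div_of_le (by norm_num)
          have := Real.add_one_le_exp (2 : ℝ)
          linarith
      _ = _ := by ring
  -- the main part
  have h7 : ∑ S ∈ P.powerset.filter (fun S => ¬ (x : ℝ) < ((pr S : ℕ) : ℝ)), ∏ p ∈ S, bb D p
      ≤ SR D x := by
    unfold SR
    have e1 : ∀ S ∈ P.powerset.filter (fun S => ¬ (x : ℝ) < ((pr S : ℕ) : ℝ)),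
        ∏ p ∈ S, bb D p = (rA D (pr S) : ℝ) / ((pr S : ℕ) : ℝ) := by
      intro S hS
      have hSp := hPp S (mem_filter.mp hS).1
      rw [rA_pr D hSp]
      unfold bb pr
      rw [Finset.prod_div_distrib]
      push_cast
      rfl
    rw [Finset.sum_congr rfl e1]
    have e2 : ∑ S ∈ P.powerset.filter (fun S => ¬ (x : ℝ) < ((pr S : ℕ) : ℝ)),
        (rA D (pr S) : ℝ) / ((pr S : ℕ) : ℝ)
        = ∑ n ∈ (P.powerset.filter (fun S => ¬ (x : ℝ) < ((pr S : ℕ) : ℝ))).image pr,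
          (rA D n : ℝ) / (n : ℝ) := by
      rw [Finset.sum_image]
      intro S hS T hT hST
      exact pr_injOn (hPp S (mem_filter.mp hS).1) (hPp T (mem_filter.mp hT).1) hST
    rw [e2]
    refine Finset.sum_le_sum_of_subset_of_nonneg ?_ fun n _ _ => ?_
    · intro n hn
      obtain ⟨S, hS, rfl⟩ := Finset.mem_image.mp hn
      rw [mem_filter] at hS
      rw [mem_Ioc]
      refine ⟨pr_pos (hPp S hS.1), ?_⟩
      have := hS.2
      push Not at this
      exact_mod_cast this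
    · exact div_nonneg (by exact_mod_cast rA_nonneg D n) (Nat.cast_nonneg _)
  rw [h1] at h6 ⊢
  linarith

lemma sum_inv_sq_le (N : ℕ) : ∑ n ∈ Icc 1 N, 1 / ((n : ℝ)) ^ 2 ≤ 2 := by
  have h : ∀ N : ℕ, 1 ≤ N → ∑ n ∈ Icc 1 N, 1 / ((n : ℝ)) ^ 2 ≤ 2 - 1 / (N : ℝ) := by
    intro N hN
    induction N, hN using Nat.le_induction with
    | base => norm_num
    | succ n hn ih =>
      rw [Finset.sum_Icc_succ_top (by omega)]
      have hn0 : (0 : ℝ) < n := by exact_mod_cast hn
      have h1 : 1 / ((n + 1 : ℕ) : ℝ) ^ 2 ≤ 1 / (n : ℝ) - 1 / ((n + 1 : ℕ) : ℝ) := by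
        push_cast
        rw [div_sub_div _ _ hn0.ne' (by positivity), div_le_div_iff₀ (by positivity) (by positivity)]
        nlinarith
      linarith
  rcases Nat.eq_zero_or_pos N with h0 | h0
  · subst h0; simp
  · have := h N h0
    have h1 : 0 ≤ 1 / (N : ℝ) := by positivity
    linarith

lemma sum_PR_inv_sq_le (z : ℕ) : ∑ p ∈ PR z, 1 / ((p : ℝ)) ^ 2 ≤ 2 :=
  (Finset.sum_le_sum_of_subset_of_nonneg (Finset.filter_subset _ _)
    fun p _ _ => by positivity).trans (sum_inv_sq_le z)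

/-- Mertens, lower bound. -/
lemma mertens_lower {z : ℕ} (hz : 3 ≤ z) :
    Real.log (Real.log z) - 4 ≤ ∑ p ∈ PR z, 1 / (p : ℝ) := by
  have hlz := one_le_log hz
  have h1 := PnMn.prod_one_sub_inv_le z (by omega)
  have h2 : 1 / Real.log ((z : ℝ) + 1) ≤ 1 / Real.log z := by
    apply one_div_le_one_div_of_le (by linarith)
    exact Real.log_le_log (by positivity) (by linarith)
  have hfac : ∀ p ∈ PR z, 0 < 1 - 1 / (p : ℝ) := by
    intro p hp
    have hp2 : (2 : ℝ) ≤ p := by exact_mod_cast (mem_PR.mp hp).2.two_le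
    have : 1 / (p : ℝ) ≤ 1 / 2 := one_div_le_one_div_of_le (by norm_num) hp2
    linarith
  have hprod : 0 < ∏ p ∈ PR z, (1 - 1 / (p : ℝ)) := Finset.prod_pos hfac
  have h3 : Real.log (∏ p ∈ PR z, (1 - 1 / (p : ℝ))) ≤ - Real.log (Real.log z) := by
    rw [← Real.log_inv]
    apply Real.log_le_log hprod
    rw [← one_div]
    exact h1.trans h2
  rw [Real.log_prod (fun p hp => (hfac p hp).ne')] at h3
  have h4 : ∀ p ∈ PR z, - (1 / (p : ℝ)) - 2 * (1 / (p : ℝ) ^ 2) ≤ Real.log (1 - 1 / (p : ℝ)) := by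
    intro p hp
    have hp2 : (2 : ℝ) ≤ p := by exact_mod_cast (mem_PR.mp hp).2.two_le
    have hp0 : (0 : ℝ) < p := by linarith
    have h5 := Real.one_sub_inv_le_log_of_pos (hfac p hp)
    refine le_trans ?_ h5
    have e : (1 - 1 / (p : ℝ))⁻¹ = p / (p - 1) := by
      have : (p : ℝ) - 1 ≠ 0 := by linarith
      field_simp
    rw [e]
    have hp1 : (0 : ℝ) < p - 1 := by linarith
    have e2 : 1 - (p : ℝ) / (p - 1) = - (1 / (p - 1)) := by field_simp; ring
    rw [e2]
    have e3 : 1 / ((p : ℝ) - 1) ≤ 1 / p + 2 * (1 / (p : ℝ) ^ 2) := by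
      rw [div_le_iff₀ hp1]
      have : (1 / (p : ℝ) + 2 * (1 / (p : ℝ) ^ 2)) * (p - 1) = 1 + (p - 2) / p ^ 2 := by
        field_simp; ring
      rw [this]
      have : 0 ≤ ((p : ℝ) - 2) / p ^ 2 := div_nonneg (by linarith) (by positivity)
      linarith
    linarith
  have h5 := Finset.sum_le_sum h4
  rw [Finset.sum_sub_distrib, Finset.sum_neg_distrib, ← Finset.mul_sum] at h5
  have h6 := sum_PR_inv_sq_le z
  linarith

/-- **Real characters**: `∑_{p ≤ z} χ_D(p)/p ≤ log (3 + log 4|D|) + 16`. -/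
theorem sum_psi_div_le {D : ℤ} (hD : D ≠ 0) (hsq : ¬ IsSquare D) (z : ℕ) :
    ∑ p ∈ PR z, (psi D p : ℝ) / p ≤ Real.log (3 + Real.log (4 * D.natAbs : ℕ)) + 20 := by
  have hlq0 : 0 ≤ Real.log (4 * D.natAbs : ℕ) := Real.log_natCast_nonneg _
  set A := 3 + Real.log (4 * D.natAbs : ℕ) with hA
  have hA3 : 3 ≤ A := by linarith
  have hlA : 0 ≤ Real.log A := Real.log_nonneg (by linarith)
  rcases lt_or_ge z 3 with hz | hz
  · -- trivial case
    have h1 : ∑ p ∈ PR z, (psi D p : ℝ) / p ≤ ∑ p ∈ PR z, (1 : ℝ) := by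
      refine Finset.sum_le_sum fun p hp => ?_
      have hp1 : (1 : ℝ) ≤ p := by exact_mod_cast (mem_PR.mp hp).2.one_le
      have h2 : (psi D p : ℝ) ≤ 1 := by
        have := (abs_le.mp (abs_psi_le D p)).2
        exact_mod_cast this
      rw [div_le_one (by linarith)]
      linarith
    have h2 : ∑ p ∈ PR z, (1 : ℝ) ≤ 2 := by
      rw [Finset.sum_const, nsmul_eq_mul, mul_one]
      have : (PR z).card ≤ 2 := by
        refine (Finset.card_le_card (Finset.filter_subset _ _)).trans ?_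
        rw [Nat.card_Icc]; omega
      exact_mod_cast this
    linarith
  · have hlz := one_le_log hz
    have hlz0 : 0 < Real.log z := by linarith
    have h1 := half_prod_le (D := D) hz
    have h2 := SR_le hD hsq (x := z ^ 12) (Nat.one_le_pow _ _ (by omega))
    have h3 : (1 + Real.log ((z ^ 12 : ℕ) : ℝ)) ≤ 13 * Real.log z := by
      push_cast
      rw [Real.log_pow]
      push_cast
      linarith
    have h4 : ∏ p ∈ PR z, (1 + bb D p) ≤ 26 * Real.log z * A := by
      have : (1 + Real.log ((z ^ 12 : ℕ) : ℝ)) * A ≤ 13 * Real.log z * A :=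
        mul_le_mul_of_nonneg_right h3 (by linarith)
      linarith
    have hpos : ∀ p ∈ PR z, 0 < 1 + bb D p := fun p _ => by have := bb_nonneg D p; linarith
    have h5 : Real.log (∏ p ∈ PR z, (1 + bb D p)) ≤ Real.log (26 * Real.log z * A) :=
      Real.log_le_log (Finset.prod_pos hpos) h4
    rw [Real.log_prod (fun p hp => (hpos p hp).ne'), Real.log_mul (by positivity) (by positivity),
      Real.log_mul (by norm_num) (by positivity)] at h5
    have h6 : ∀ p ∈ PR z, (psi D p : ℝ) / p + 1 / p - 4 * (1 / (p : ℝ) ^ 2)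
        ≤ Real.log (1 + bb D p) := by
      intro p hp
      have hp0 : (0 : ℝ) < p := by exact_mod_cast (mem_PR.mp hp).2.pos
      have hb0 := bb_nonneg D p
      have hb2 := bb_le D p
      have h7 := Real.one_sub_inv_le_log_of_pos (hpos p hp)
      refine le_trans ?_ h7
      have e1 : (psi D p : ℝ) / p + 1 / p = bb D p := by unfold bb; ring
      rw [e1]
      have e2 : 1 - (1 + bb D p)⁻¹ = bb D p - (bb D p) ^ 2 / (1 + bb D p) := by
        field_simp; ring
      rw [e2]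
      have e3 : (bb D p) ^ 2 / (1 + bb D p) ≤ 4 * (1 / (p : ℝ) ^ 2) := by
        calc (bb D p) ^ 2 / (1 + bb D p) ≤ (bb D p) ^ 2 / 1 := by
              gcongr
              linarith
          _ = (bb D p) ^ 2 := div_one _
          _ ≤ (2 / (p : ℝ)) ^ 2 := by gcongr
          _ = _ := by field_simp; norm_num
      linarith
    have h7 := Finset.sum_le_sum h6
    rw [Finset.sum_sub_distrib, Finset.sum_add_distrib, ← Finset.mul_sum] at h7
    have h8 := sum_PR_inv_sq_le z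
    have h9 := mertens_lower hz
    have h10 : Real.log 26 ≤ 8 := by
      have : Real.log 26 ≤ Real.log (2 ^ 5) := Real.log_le_log (by norm_num) (by norm_num)
      rw [Real.log_pow] at this
      have h := Real.log_two_lt_d9
      push_cast at this
      linarith
    linarith

end Pool.Agent.C1M
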