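import Mathlib
import Pool.Agent.C1M.FM3

set_option autoImplicit false

/-!
# Upper bound for the Euler products `EP z D`
-/

namespace Pool.Agent.C1M

open Finset Pool.Agent.HyperWeil

lemma psi_two_eq {p : ℕ} (hp : p % 2 = 1) :
    psi 2 p = if p % 8 = 1 ∨ p % 8 = 7 then 1 else -1 := by
  unfold psi
  rw [if_pos hp, jacobiSym.at_two (Nat.odd_iff.mpr hp), ZMod.χ₈_nat_eq_if_mod_eight, if_neg (by omega)]

lemma P8_subset_PR (z : ℕ) : P8 z ⊆ PR z := by
  intro p hp
  rw [mem_P8] at hp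
  exact mem_PR.mpr ⟨hp.1, hp.2.1⟩

lemma sum_P8_psi (z : ℕ) (D : ℤ) :
    ∑ p ∈ P8 z, (psi D p : ℝ) / p
      = (1 / 2) * (∑ p ∈ PR z, (psi D p : ℝ) / p + ∑ p ∈ PR z, (psi (2 * D) p : ℝ) / p) := by
  rw [← Finset.sum_add_distrib, Finset.mul_sum]
  rw [← Finset.sum_subset (P8_subset_PR z)]
  · refine Finset.sum_congr rfl fun p hp => ?_
    have h1 := odd_of_mem_P8 hp
    rw [psi_mul_left, psi_two_eq h1, if_pos (mem_P8.mp hp).2.2]
    push_cast
    ring
  · intro p hp hpn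
    rw [mem_PR] at hp
    by_cases h2 : p % 2 = 1
    · rw [psi_mul_left, psi_two_eq h2, if_neg]
      · push_cast; ring
      · intro h
        exact hpn (mem_P8.mpr ⟨hp.1, hp.2, h⟩)
    · have e : ∀ E : ℤ, psi E p = 0 := fun E => if_neg h2
      rw [e, e]
      simp

/-- **Euler product bound**. -/
theorem EP_le {D : ℤ} (hD : D ≠ 0) (hsq : ¬ IsSquare D) (hsq2 : ¬ IsSquare (2 * D)) (z : ℕ) :
    EP z D ≤ Real.exp 11 * (3 + Real.log (4 * (2 * D).natAbs : ℕ)) ^ ((1 : ℝ) / 2) := by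
  have hD2 : 2 * D ≠ 0 := by omega
  set A := 3 + Real.log (4 * (2 * D).natAbs : ℕ) with hA
  have hlq0 : 0 ≤ Real.log (4 * (2 * D).natAbs : ℕ) := Real.log_natCast_nonneg _
  have hA3 : 3 ≤ A := by linarith
  have hA0 : 0 < A := by linarith
  have hDa : 0 < D.natAbs := Int.natAbs_pos.mpr hD
  have h1 := sum_psi_div_le hD hsq z
  have h2 := sum_psi_div_le hD2 hsq2 z
  rw [← hA] at h2
  have h1' : Real.log (3 + Real.log (4 * D.natAbs : ℕ)) ≤ Real.log A := by
    apply Real.log_le_log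
    · have : 0 ≤ Real.log (4 * D.natAbs : ℕ) := Real.log_natCast_nonneg _
      linarith
    · rw [hA]
      have : Real.log (4 * D.natAbs : ℕ) ≤ Real.log (4 * (2 * D).natAbs : ℕ) := by
        apply Real.log_le_log
        · exact_mod_cast (by omega : 0 < 4 * D.natAbs)
        · have : 4 * D.natAbs ≤ 4 * (2 * D).natAbs := by
            rw [Int.natAbs_mul]; simp only [Int.reduceAbs]; omega
          exact_mod_cast this
      linarith
  have h3 := sum_P8_psi z D
  have hfac : ∀ p ∈ P8 z, 1 + cc p * (psi D p : ℝ) ≤ Real.exp (cc p * (psi D p : ℝ)) := by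
    intro p _
    have := Real.add_one_le_exp (cc p * (psi D p : ℝ))
    linarith
  have hfac0 : ∀ p ∈ P8 z, 0 ≤ 1 + cc p * (psi D p : ℝ) := by
    intro p _
    have h4 : (-1 : ℝ) ≤ (psi D p : ℝ) := by
      have := (abs_le.mp (abs_psi_le D p)).1
      exact_mod_cast this
    have h5 : cc p ≤ 1 := by
      unfold cc
      rw [div_le_one (by positivity)]
      have : (0 : ℝ) ≤ p := Nat.cast_nonneg p
      linarith
    have h6 := cc_nonneg p
    nlinarith
  have h4 : EP z D ≤ Real.exp (∑ p ∈ P8 z, cc p * (psi D p : ℝ)) := by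
    unfold EP
    rw [Real.exp_sum]
    exact Finset.prod_le_prod hfac0 hfac
  have h5 : ∑ p ∈ P8 z, cc p * (psi D p : ℝ) ≤ (1 / 2) * ∑ p ∈ P8 z, (psi D p : ℝ) / p + 1 / 2 := by
    have h6 : ∀ p ∈ P8 z, cc p * (psi D p : ℝ) ≤ (1 / 2) * ((psi D p : ℝ) / p) +
        (1 / 4) * (1 / (p : ℝ) ^ 2) := by
      intro p hp
      have hp0 : (0 : ℝ) < p := by exact_mod_cast (mem_P8.mp hp).2.1.pos
      have h7 : (-1 : ℝ) ≤ (psi D p : ℝ) := by
        have := (abs_le.mp (abs_psi_le D p)).1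
        exact_mod_cast this
      have e : (1 / 2) * ((psi D p : ℝ) / p) - cc p * (psi D p : ℝ)
          = (psi D p : ℝ) * (1 / (2 * p * (2 * p + 1))) := by
        unfold cc; field_simp; ring
      have h8 : (1 : ℝ) / (2 * p * (2 * p + 1)) ≤ (1 / 4) * (1 / (p : ℝ) ^ 2) := by
        rw [div_mul_div_comm, one_mul]
        apply one_div_le_one_div_of_le (by positivity)
        nlinarith
      have h9 : 0 ≤ (1 : ℝ) / (2 * p * (2 * p + 1)) := by positivity
      nlinarith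
    have h7 := Finset.sum_le_sum h6
    rw [Finset.sum_add_distrib, ← Finset.mul_sum, ← Finset.mul_sum] at h7
    have h8 : ∑ p ∈ P8 z, 1 / (p : ℝ) ^ 2 ≤ 2 :=
      (Finset.sum_le_sum_of_subset_of_nonneg (P8_subset_PR z)
        fun p _ _ => by positivity).trans (sum_PR_inv_sq_le z)
    linarith
  have h6 : ∑ p ∈ P8 z, cc p * (psi D p : ℝ) ≤ (1 / 2) * Real.log A + 11 := by linarith
  calc EP z D ≤ Real.exp (∑ p ∈ P8 z, cc p * (psi D p : ℝ)) := h4
    _ ≤ Real.exp ((1 / 2) * Real.log A + 11) := Real.exp_le_exp.mpr h6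
    _ = Real.exp 11 * A ^ ((1 : ℝ) / 2) := by
        rw [Real.exp_add, Real.rpow_def_of_pos hA0]
        ring_nf

lemma EP_nonneg (z : ℕ) (D : ℤ) : 0 ≤ EP z D := by
  unfold EP
  refine Finset.prod_nonneg fun p _ => ?_
  have h4 : (-1 : ℝ) ≤ (psi D p : ℝ) := by
    have := (abs_le.mp (abs_psi_le D p)).1
    exact_mod_cast this
  have h5 : cc p ≤ 1 := by
    unfold cc
    rw [div_le_one (by positivity)]
    have : (0 : ℝ) ≤ p := Nat.cast_nonneg p
    linarith
  have h6 := cc_nonneg p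
  nlinarith

lemma EP_le_QQ (z : ℕ) (D : ℤ) : EP z D ≤ QQ z := by
  unfold EP QQ
  refine Finset.prod_le_prod (fun p _ => ?_) (fun p _ => ?_)
  · have h4 : (-1 : ℝ) ≤ (psi D p : ℝ) := by
      have := (abs_le.mp (abs_psi_le D p)).1
      exact_mod_cast this
    have h5 : cc p ≤ 1 := by
      unfold cc
      rw [div_le_one (by positivity)]
      have : (0 : ℝ) ≤ p := Nat.cast_nonneg p
      linarith
    have h6 := cc_nonneg p
    nlinarith
  · have h4 : (psi D p : ℝ) ≤ 1 := by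
      have := (abs_le.mp (abs_psi_le D p)).2
      exact_mod_cast this
    have h6 := cc_nonneg p
    nlinarith

end Pool.Agent.C1M
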