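import Mathlib
import Pool.Agent.HyperWeil.LargeSieve
import Pool.Agent.C1M.FM4

set_option autoImplicit false

/-!
# The bilinear bound
-/

namespace Pool.Agent.C1M

open Finset Pool.Agent.HyperWeil

open ArithmeticFunction (cardFactors)

/-- Weighted square norm. -/
noncomputable def NW (K : ℕ) (lam : ℝ) (a : ℕ → ℝ) : ℝ :=
  ∑ n ∈ Icc 1 K, lam ^ (cardFactors n) * n * (a n) ^ 2

/-- Dirichlet convolution with the weights `cw U` at `pr U`, `U ∈ F`. -/
noncomputable def cv (F : Finset (Finset ℕ)) (a : ℕ → ℝ) (n : ℕ) : ℝ :=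
  ∑ U ∈ F.filter (fun U => pr U ∣ n), cw U * a (n / pr U)

lemma primeFactors_pr {U : Finset ℕ} (hU : ∀ p ∈ U, p.Prime) : (pr U).primeFactors = U := by
  ext p
  rw [Nat.mem_primeFactors]
  constructor
  · rintro ⟨hp, hd, _⟩
    obtain ⟨a, ha, hpa⟩ := (Prime.dvd_finsetProd_iff hp.prime _).mp hd
    have := (Nat.prime_dvd_prime_iff_eq hp (hU a ha)).mp hpa
    rw [this]; exact ha
  · intro hp
    exact ⟨hU p hp, Finset.dvd_prod_of_mem _ hp, (pr_pos hU).ne'⟩

lemma Om_pr {U : Finset ℕ} (hU : ∀ p ∈ U, p.Prime) : cardFactors (pr U) = U.card := by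
  induction U using Finset.induction_on with
  | empty => simp [pr]
  | insert a s ha ih =>
    have hs : ∀ p ∈ s, p.Prime := fun p hp => hU p (Finset.mem_insert_of_mem hp)
    have haP : a.Prime := hU a (Finset.mem_insert_self _ _)
    have h1 : pr (insert a s) = a * pr s := by unfold pr; rw [Finset.prod_insert ha]
    rw [h1, ArithmeticFunction.cardFactors_mul haP.ne_zero (pr_pos hs).ne', ih hs,
      ArithmeticFunction.cardFactors_apply_prime haP, Finset.card_insert_of_notMem ha]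
    ring

lemma card_dvd_le {F : Finset (Finset ℕ)} (hF : ∀ U ∈ F, ∀ p ∈ U, p.Prime) {n : ℕ} (hn : n ≠ 0) :
    (F.filter (fun U => pr U ∣ n)).card ≤ 2 ^ (cardFactors n) := by
  have h1 : F.filter (fun U => pr U ∣ n) ⊆ n.primeFactors.powerset := by
    intro U hU
    rw [mem_filter] at hU
    rw [mem_powerset]
    intro p hp
    rw [Nat.mem_primeFactors]
    exact ⟨hF U hU.1 p hp, (Finset.dvd_prod_of_mem _ hp).trans hU.2, hn⟩
  refine (Finset.card_le_card h1).trans ?_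
  rw [Finset.card_powerset]
  refine Nat.pow_le_pow_right (by norm_num) ?_
  rw [ArithmeticFunction.cardFactors_apply, ← Nat.toFinset_factors]
  exact List.toFinset_card_le _

lemma NW_nonneg (K : ℕ) {lam : ℝ} (hl : 0 ≤ lam) (a : ℕ → ℝ) : 0 ≤ NW K lam a :=
  Finset.sum_nonneg fun n _ => by positivity

lemma NW_cv {F : Finset (Finset ℕ)} (hF : ∀ U ∈ F, ∀ p ∈ U, p.Prime) (K : ℕ) {lam : ℝ}
    (hl : 0 ≤ lam) (a : ℕ → ℝ) :
    NW K lam (cv F a) ≤ (∑ U ∈ F, (2 * lam) ^ U.card * ((pr U : ℕ) : ℝ) * (cw U) ^ 2) *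
      NW K (2 * lam) a := by
  have h1 : ∀ n ∈ Icc 1 K, lam ^ (cardFactors n) * n * (cv F a n) ^ 2 ≤
      ∑ U ∈ F.filter (fun U => pr U ∣ n), ((2 * lam) ^ U.card * ((pr U : ℕ) : ℝ) * (cw U) ^ 2) *
        ((2 * lam) ^ (cardFactors (n / pr U)) * ((n / pr U : ℕ) : ℝ) * (a (n / pr U)) ^ 2) := by
    intro n hn
    rw [mem_Icc] at hn
    have hn0 : n ≠ 0 := by omega
    have h2 : (cv F a n) ^ 2 ≤ 2 ^ (cardFactors n) *
        ∑ U ∈ F.filter (fun U => pr U ∣ n), (cw U * a (n / pr U)) ^ 2 := by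
      unfold cv
      refine (sq_sum_le_card_mul_sum_sq).trans ?_
      refine mul_le_mul_of_nonneg_right ?_ (Finset.sum_nonneg fun _ _ => sq_nonneg _)
      exact_mod_cast card_dvd_le hF hn0
    calc lam ^ (cardFactors n) * n * (cv F a n) ^ 2
        ≤ lam ^ (cardFactors n) * n * (2 ^ (cardFactors n) *
          ∑ U ∈ F.filter (fun U => pr U ∣ n), (cw U * a (n / pr U)) ^ 2) :=
          mul_le_mul_of_nonneg_left h2 (by positivity)
      _ = ∑ U ∈ F.filter (fun U => pr U ∣ n),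
          (2 * lam) ^ (cardFactors n) * n * (cw U * a (n / pr U)) ^ 2 := by
          rw [mul_pow, Finset.mul_sum, Finset.mul_sum]
          refine Finset.sum_congr rfl fun U _ => ?_
          ring
      _ = _ := by
          refine Finset.sum_congr rfl fun U hU => ?_
          rw [mem_filter] at hU
          have hUp := hF U hU.1
          obtain ⟨m, hm⟩ := hU.2
          have hp0 := pr_pos hUp
          have hm0 : m ≠ 0 := by rintro rfl; omega
          have hdiv : n / pr U = m := by rw [hm]; exact Nat.mul_div_cancel_left _ hp0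
          rw [hdiv, hm, ArithmeticFunction.cardFactors_mul hp0.ne' hm0, Om_pr hUp, pow_add]
          push_cast
          ring
  unfold NW
  refine (Finset.sum_le_sum h1).trans ?_
  rw [Finset.sum_mul]
  have h3 : ∑ n ∈ Icc 1 K, ∑ U ∈ F.filter (fun U => pr U ∣ n),
      ((2 * lam) ^ U.card * ((pr U : ℕ) : ℝ) * (cw U) ^ 2) *
        ((2 * lam) ^ (cardFactors (n / pr U)) * ((n / pr U : ℕ) : ℝ) * (a (n / pr U)) ^ 2)
      = ∑ U ∈ F, ∑ n ∈ (Icc 1 K).filter (fun n => pr U ∣ n),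
      ((2 * lam) ^ U.card * ((pr U : ℕ) : ℝ) * (cw U) ^ 2) *
        ((2 * lam) ^ (cardFactors (n / pr U)) * ((n / pr U : ℕ) : ℝ) * (a (n / pr U)) ^ 2) := by
    refine Finset.sum_comm' ?_
    intro n U
    simp only [mem_filter]
    tauto
  rw [h3]
  refine Finset.sum_le_sum fun U hU => ?_
  rw [← Finset.mul_sum]
  refine mul_le_mul_of_nonneg_left ?_ (by positivity)
  have hp0 := pr_pos (hF U hU)
  have h4 : ∑ n ∈ (Icc 1 K).filter (fun n => pr U ∣ n),
      ((2 * lam) ^ (cardFactors (n / pr U)) * ((n / pr U : ℕ) : ℝ) * (a (n / pr U)) ^ 2)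
      = ∑ m ∈ ((Icc 1 K).filter (fun n => pr U ∣ n)).image (fun n => n / pr U),
        ((2 * lam) ^ (cardFactors m) * (m : ℝ) * (a m) ^ 2) := by
    rw [Finset.sum_image]
    intro n hn n' hn' h
    have hn := (mem_filter.mp hn).2
    have hn' := (mem_filter.mp hn').2
    simp only at h
    rw [← Nat.mul_div_cancel' hn, h, Nat.mul_div_cancel' hn']
  rw [h4]
  refine Finset.sum_le_sum_of_subset_of_nonneg ?_ fun m _ _ => by positivity
  intro m hm
  obtain ⟨n, hn, rfl⟩ := Finset.mem_image.mp hm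
  rw [mem_filter, mem_Icc] at hn
  rw [mem_Icc]
  refine ⟨Nat.div_pos (Nat.le_of_dvd (by omega) hn.2) hp0, (Nat.div_le_self _ _).trans hn.1.2⟩

/-- Support condition. -/
def SUP (a : ℕ → ℝ) (lo hi : ℕ) : Prop := ∀ n, a n ≠ 0 → lo ≤ n ∧ n ≤ hi

lemma SUP_cv {F : Finset (Finset ℕ)} {A B : ℕ} (hA : ∀ U ∈ F, A ≤ pr U) (hB : ∀ U ∈ F, pr U ≤ B)
    {a : ℕ → ℝ} {lo hi : ℕ} (ha : SUP a lo hi) : SUP (cv F a) (A * lo) (B * hi) := by
  intro n hn
  unfold cv at hn
  obtain ⟨U, hU, hU2⟩ := Finset.exists_ne_zero_of_sum_ne_zero hn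
  rw [mem_filter] at hU
  have h1 : a (n / pr U) ≠ 0 := right_ne_zero_of_mul hU2
  obtain ⟨h2, h3⟩ := ha _ h1
  have h4 : n = pr U * (n / pr U) := (Nat.mul_div_cancel' hU.2).symm
  constructor
  · rw [h4]; exact Nat.mul_le_mul (hA U hU.1) h2
  · rw [h4]; exact Nat.mul_le_mul (hB U hU.1) h3

/-- The linear form. -/
noncomputable def BB (F : Finset (Finset ℕ)) (e : ℤ) : ℝ := ∑ U ∈ F, cw U * (psi e (pr U) : ℝ)

lemma sum_cv {F : Finset (Finset ℕ)} (hF : ∀ U ∈ F, ∀ p ∈ U, p.Prime) {B : ℕ}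
    (hB : ∀ U ∈ F, pr U ≤ B) {a : ℕ → ℝ} {lo hi : ℕ} (ha : SUP a lo hi) {K : ℕ}
    (hK : B * hi ≤ K) (e : ℤ) :
    ∑ n ∈ Icc 1 K, cv F a n * (psi e n : ℝ) = BB F e * ∑ m ∈ Icc 1 K, a m * (psi e m : ℝ) := by
  unfold cv BB
  simp only [Finset.sum_mul]
  have h3 : ∑ n ∈ Icc 1 K, ∑ U ∈ F.filter (fun U => pr U ∣ n),
      cw U * a (n / pr U) * (psi e n : ℝ)
      = ∑ U ∈ F, ∑ n ∈ (Icc 1 K).filter (fun n => pr U ∣ n),
      cw U * a (n / pr U) * (psi e n : ℝ) := by
    refine Finset.sum_comm' ?_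
    intro n U
    simp only [mem_filter]
    tauto
  rw [h3]
  refine Finset.sum_congr rfl fun U hU => ?_
  have hp0 := pr_pos (hF U hU)
  have h4 : ∑ n ∈ (Icc 1 K).filter (fun n => pr U ∣ n), cw U * a (n / pr U) * (psi e n : ℝ)
      = ∑ m ∈ (Icc 1 K).filter (fun m => pr U * m ≤ K), cw U * a m * (psi e (pr U * m) : ℝ) := by
    refine Finset.sum_nbij' (fun n => n / pr U) (fun m => pr U * m) ?_ ?_ ?_ ?_ ?_
    · intro n hn
      rw [mem_filter, mem_Icc] at hn
      rw [mem_filter, mem_Icc, Nat.mul_div_cancel' hn.2]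
      exact ⟨⟨Nat.div_pos (Nat.le_of_dvd (by omega) hn.2) hp0, (Nat.div_le_self _ _).trans hn.1.2⟩,
        hn.1.2⟩
    · intro m hm
      rw [mem_filter, mem_Icc] at hm
      rw [mem_filter, mem_Icc]
      exact ⟨⟨Nat.mul_pos hp0 hm.1.1, hm.2⟩, dvd_mul_right _ _⟩
    · intro n hn
      rw [mem_filter] at hn
      exact Nat.mul_div_cancel' hn.2
    · intro m _
      exact Nat.mul_div_cancel_left _ hp0
    · intro n hn
      rw [mem_filter] at hn
      rw [Nat.mul_div_cancel' hn.2]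
  rw [h4, Finset.mul_sum]
  rw [Finset.sum_filter]
  refine Finset.sum_congr rfl fun m _ => ?_
  split_ifs with h
  · rw [psi_mul_right]; push_cast; ring
  · have : a m = 0 := by
      by_contra hne
      have h5 := (ha m hne).2
      exact h ((Nat.mul_le_mul (hB U hU) h5).trans hK)
    rw [this]; ring

end Pool.Agent.C1M
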