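import Mathlib
import Pool.Agent.C1M.FM5

set_option autoImplicit false

/-!
# The bilinear bound, part 2
-/

namespace Pool.Agent.C1M

open Finset Pool.Agent.HyperWeil

lemma mul_cc_sq_le {p : ℕ} (hp : 0 < p) : (p : ℝ) * (cc p) ^ 2 ≤ 1 / (4 * p) := by
  have hp0 : (0 : ℝ) < p := by exact_mod_cast hp
  unfold cc
  rw [div_pow, one_pow, mul_one_div, div_le_div_iff₀ (by positivity) (by positivity)]
  nlinarith

lemma step_const_le {F : Finset (Finset ℕ)} {P : Finset ℕ} (hP : ∀ p ∈ P, p.Prime)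
    (hFP : ∀ U ∈ F, U ⊆ P) {mu : ℝ} (hmu : 0 ≤ mu) :
    ∑ U ∈ F, mu ^ U.card * ((pr U : ℕ) : ℝ) * (cw U) ^ 2
      ≤ ∏ p ∈ P, (1 + mu / (4 * (p : ℝ))) := by
  have h1 : ∀ U : Finset ℕ, mu ^ U.card * ((pr U : ℕ) : ℝ) * (cw U) ^ 2
      = ∏ p ∈ U, (mu * ((p : ℝ) * (cc p) ^ 2)) := by
    intro U
    unfold pr cw
    rw [Finset.prod_mul_distrib, Finset.prod_mul_distrib, Finset.prod_const, Nat.cast_prod,
      Finset.prod_pow]
    ring
  have h2 : ∑ U ∈ F, mu ^ U.card * ((pr U : ℕ) : ℝ) * (cw U) ^ 2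
      ≤ ∑ U ∈ P.powerset, ∏ p ∈ U, (mu * ((p : ℝ) * (cc p) ^ 2)) := by
    rw [Finset.sum_congr rfl fun U _ => h1 U]
    refine Finset.sum_le_sum_of_subset_of_nonneg ?_ fun U _ _ =>
      Finset.prod_nonneg fun p _ => by positivity
    intro U hU
    rw [mem_powerset]; exact hFP U hU
  refine h2.trans ?_
  rw [← Finset.prod_one_add]
  refine Finset.prod_le_prod (fun p _ => by positivity) fun p hp => ?_
  have h3 := mul_cc_sq_le (hP p hp).pos
  have : mu * ((p : ℝ) * (cc p) ^ 2) ≤ mu * (1 / (4 * p)) := mul_le_mul_of_nonneg_left h3 hmu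
  calc 1 + mu * ((p : ℝ) * (cc p) ^ 2) ≤ 1 + mu * (1 / (4 * p)) := by linarith
    _ = _ := by ring

/-- The delta function at `1`. -/
noncomputable def dl (n : ℕ) : ℝ := if n = 1 then 1 else 0

lemma SUP_dl : SUP dl 1 1 := by
  intro n hn
  unfold dl at hn
  have : n = 1 := by
    by_contra h
    rw [if_neg h] at hn
    exact hn rfl
  omega

lemma NW_dl (K : ℕ) {lam : ℝ} (_ : 0 ≤ lam) : NW K lam dl ≤ 1 := by
  unfold NW
  have h : ∀ n ∈ Icc 1 K, lam ^ (ArithmeticFunction.cardFactors n) * n * (dl n) ^ 2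
      = if n = 1 then 1 else 0 := by
    intro n _
    unfold dl
    split_ifs with h
    · subst h; simp
    · simp
  rw [Finset.sum_congr rfl h, Finset.sum_ite_eq']
  split_ifs <;> norm_num

/-- **Bilinear bound.** -/
theorem bil {F : Finset (Finset ℕ)} {P : Finset ℕ} (hP : ∀ p ∈ P, p.Prime)
    (hFP : ∀ U ∈ F, U ⊆ P) {A D : ℕ} (hD1 : 1 ≤ D) (hDA : D ≤ A) (hA : ∀ U ∈ F, A ≤ pr U)
    (hB : ∀ U ∈ F, pr U ≤ 2 * A) (S : Finset ℤ) (hS : ∀ e ∈ S, Squarefree e)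
    (hSD : ∀ e ∈ S, e.natAbs ≤ 2 * D) (hcard : S.card ≤ 2 * D) (w : ℤ → ℝ)
    (hw : ∀ e ∈ S, |w e| ≤ 1 / D) :
    |∑ e ∈ S, w e * BB F e| ^ 6 * D ≤ 1280 * (∏ p ∈ P, (1 + 1 / (p : ℝ))) ^ 4 := by
  classical
  have hF : ∀ U ∈ F, ∀ p ∈ U, p.Prime := fun U hU p hp => hP p (hFP U hU hp)
  have hA0 : (0 : ℝ) < A := by exact_mod_cast (by omega : 0 < A)
  have hD0 : (0 : ℝ) < D := by exact_mod_cast (by omega : 0 < D)
  have hDAr : (D : ℝ) ≤ A := by exact_mod_cast hDA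
  set KP := (∏ p ∈ P, (1 + 1 / (p : ℝ))) ^ 4 with hKP
  have hKP0 : 0 ≤ KP := by positivity
  set K := 8 * A ^ 3 with hK
  set a1 := cv F dl with ha1
  set a2 := cv F a1 with ha2
  set a3 := cv F a2 with ha3
  have s1 : SUP a1 (A * 1) (2 * A * 1) := SUP_cv hA hB SUP_dl
  have s2 : SUP a2 (A * (A * 1)) (2 * A * (2 * A * 1)) := SUP_cv hA hB s1
  have s3 : SUP a3 (A * (A * (A * 1))) (2 * A * (2 * A * (2 * A * 1))) := SUP_cv hA hB s2
  have k3 : 2 * A * (2 * A * (2 * A * 1)) ≤ K := by rw [hK]; ring_nf; rfl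
  have k2 : 2 * A * (2 * A * 1) ≤ K := by
    refine le_trans ?_ k3
    have : 1 ≤ 2 * A := by omega
    nlinarith [Nat.mul_le_mul (Nat.mul_le_mul this this) this]
  have k1 : 2 * A * 1 ≤ K := by
    refine le_trans ?_ k2
    have : 1 ≤ 2 * A := by omega
    nlinarith
  have kK : 1 ≤ K := by omega
  -- cubes
  have hcube : ∀ e : ℤ, ∑ n ∈ Icc 1 K, a3 n * (psi e n : ℝ) = BB F e ^ 3 := by
    intro e
    rw [ha3, sum_cv hF hB s2 k3, ha2, sum_cv hF hB s1 k2, ha1, sum_cv hF hB SUP_dl k1]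
    have : ∑ m ∈ Icc 1 K, dl m * (psi e m : ℝ) = 1 := by
      rw [Finset.sum_eq_single 1]
      · simp [dl, psi_one]
      · intro m _ hm
        unfold dl; rw [if_neg hm, zero_mul]
      · intro h
        exact absurd (mem_Icc.mpr ⟨le_rfl, kK⟩) h
    rw [this]; ring
  -- the norm of a3
  have hN : NW K 1 a3 ≤ KP := by
    have n1 := NW_cv hF K (lam := 1) (by norm_num) a2
    have n2 := NW_cv hF K (lam := 2 * 1) (by norm_num) a1
    have n3 := NW_cv hF K (lam := 2 * (2 * 1)) (by norm_num) dl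
    have n4 := NW_dl K (lam := 2 * (2 * (2 * 1))) (by norm_num)
    have c1 := step_const_le hP hFP (mu := 2 * 1) (by norm_num)
    have c2 := step_const_le hP hFP (mu := 2 * (2 * 1)) (by norm_num)
    have c3 := step_const_le hP hFP (mu := 2 * (2 * (2 * 1))) (by norm_num)
    have p1 : ∏ p ∈ P, (1 + (2 * 1) / (4 * (p : ℝ))) ≤ ∏ p ∈ P, (1 + 1 / (p : ℝ)) := by
      refine Finset.prod_le_prod (fun p _ => by positivity) fun p hp => ?_
      have hp0 : (0 : ℝ) < p := by exact_mod_cast (hP p hp).pos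
      have : (2 * 1) / (4 * (p : ℝ)) ≤ 1 / p := by
        rw [div_le_div_iff₀ (by positivity) hp0]; linarith
      linarith
    have p2 : ∏ p ∈ P, (1 + (2 * (2 * 1)) / (4 * (p : ℝ))) = ∏ p ∈ P, (1 + 1 / (p : ℝ)) := by
      refine Finset.prod_congr rfl fun p hp => ?_
      have hp0 : (0 : ℝ) < p := by exact_mod_cast (hP p hp).pos
      field_simp
      ring
    have p3 : ∏ p ∈ P, (1 + (2 * (2 * (2 * 1))) / (4 * (p : ℝ)))
        ≤ (∏ p ∈ P, (1 + 1 / (p : ℝ))) ^ 2 := by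
      rw [← Finset.prod_pow]
      refine Finset.prod_le_prod (fun p _ => by positivity) fun p hp => ?_
      have hp0 : (0 : ℝ) < p := by exact_mod_cast (hP p hp).pos
      have e : (2 * (2 * (2 * 1))) / (4 * (p : ℝ)) = 2 * (1 / p) := by field_simp; ring
      rw [e]
      nlinarith [sq_nonneg (1 / (p : ℝ))]
    set Q := ∏ p ∈ P, (1 + 1 / (p : ℝ)) with hQ
    have hQ0 : 0 ≤ Q := Finset.prod_nonneg fun p _ => by positivity
    have hx : ∀ mu : ℝ, 0 ≤ mu →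
        0 ≤ ∑ U ∈ F, mu ^ U.card * ((pr U : ℕ) : ℝ) * (cw U) ^ 2 := fun mu hmu =>
      Finset.sum_nonneg fun U _ => by positivity
    have m3 : NW K (2 * (2 * 1)) a1 ≤ Q ^ 2 := by
      refine n3.trans ?_
      calc _ ≤ Q ^ 2 * 1 := mul_le_mul (c3.trans p3) n4 (NW_nonneg K (by norm_num) dl)
            (by positivity)
        _ = _ := mul_one _
    have m2 : NW K (2 * 1) a2 ≤ Q ^ 3 := by
      refine n2.trans ?_
      calc _ ≤ Q * Q ^ 2 := mul_le_mul (c2.trans p2.le) m3 (NW_nonneg K (by norm_num) a1) hQ0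
        _ = _ := by ring
    have m1 : NW K 1 a3 ≤ Q ^ 4 := by
      refine n1.trans ?_
      calc _ ≤ Q * Q ^ 3 := mul_le_mul (c1.trans p1) m2 (NW_nonneg K (by norm_num) a2) hQ0
        _ = _ := by ring
    exact m1
  -- the L2 norm of a3
  have hL2 : (A : ℝ) ^ 3 * ∑ n ∈ Icc 1 K, (a3 n) ^ 2 ≤ KP := by
    refine le_trans ?_ hN
    unfold NW
    rw [Finset.mul_sum]
    refine Finset.sum_le_sum fun n _ => ?_
    rw [one_pow, one_mul]
    by_cases h0 : a3 n = 0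
    · rw [h0]; simp
    · have h1 := (s3 n h0).1
      have h2 : (A : ℝ) ^ 3 ≤ n := by
        have : A ^ 3 ≤ n := by
          calc A ^ 3 = A * (A * (A * 1)) := by ring
            _ ≤ n := h1
        exact_mod_cast this
      exact mul_le_mul_of_nonneg_right h2 (sq_nonneg _)
  -- signs
  set sg : ℤ → ℝ := fun e => if 0 ≤ BB F e then 1 else -1 with hsg
  have hsg2 : ∀ e, sg e ^ 2 = 1 := by intro e; simp only [hsg]; split_ifs <;> norm_num
  have hsgB : ∀ e, sg e * BB F e ^ 3 = |BB F e| ^ 3 := by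
    intro e
    simp only [hsg]
    split_ifs with h
    · rw [abs_of_nonneg h, one_mul]
    · push Not at h
      rw [abs_of_neg h]; ring
  have hsieve := dual_sieve S hS hSD sg K
  have hsum : ∑ e ∈ S, |BB F e| ^ 3 = ∑ n ∈ Icc 1 K, a3 n * ∑ e ∈ S, sg e * (psi e n : ℝ) := by
    simp only [Finset.mul_sum]
    rw [Finset.sum_comm]
    refine Finset.sum_congr rfl fun e _ => ?_
    rw [← hsgB, ← hcube, Finset.mul_sum]
    refine Finset.sum_congr rfl fun n _ => ?_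
    ring
  set T := ∑ e ∈ S, |BB F e| ^ 3 with hT
  have hT0 : 0 ≤ T := Finset.sum_nonneg fun e _ => by positivity
  have hcardR : (S.card : ℝ) ≤ 2 * D := by exact_mod_cast hcard
  have hTsq : T ^ 2 * (A : ℝ) ^ 3 ≤ KP * (80 * (A : ℝ) ^ 3 * D) := by
    have h1 : T ^ 2 ≤ (∑ n ∈ Icc 1 K, (a3 n) ^ 2) *
        ∑ n ∈ Icc 1 K, (∑ e ∈ S, sg e * (psi e n : ℝ)) ^ 2 := by
      rw [hsum]
      exact Finset.sum_mul_sq_le_sq_mul_sq _ _ _
    have h2 : ∑ n ∈ Icc 1 K, (∑ e ∈ S, sg e * (psi e n : ℝ)) ^ 2 ≤ 80 * (A : ℝ) ^ 3 * D := by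
      refine hsieve.trans ?_
      simp only [hsg2, Finset.sum_const, nsmul_eq_mul, mul_one]
      have hc0 : (0 : ℝ) ≤ S.card := Nat.cast_nonneg _
      have e1 : ((K : ℕ) : ℝ) = 8 * (A : ℝ) ^ 3 := by rw [hK]; push_cast; ring
      have e2 : (4 * ((2 * D : ℕ) : ℝ) ^ 2 * S.card) ≤ 32 * (A : ℝ) ^ 3 := by
        push_cast
        calc 4 * (2 * (D : ℝ)) ^ 2 * S.card ≤ 4 * (2 * (D : ℝ)) ^ 2 * (2 * D) := by gcongr
          _ = 32 * (D : ℝ) ^ 3 := by ring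
          _ ≤ 32 * (A : ℝ) ^ 3 := by gcongr
      calc ((K : ℕ) + 4 * ((2 * D : ℕ) : ℝ) ^ 2 * S.card) * S.card
          ≤ (8 * (A : ℝ) ^ 3 + 32 * (A : ℝ) ^ 3) * (2 * D) := by
            rw [e1]; gcongr
        _ = _ := by ring
    have h3 : 0 ≤ ∑ n ∈ Icc 1 K, (a3 n) ^ 2 := Finset.sum_nonneg fun n _ => sq_nonneg _
    calc T ^ 2 * (A : ℝ) ^ 3 ≤ ((∑ n ∈ Icc 1 K, (a3 n) ^ 2) * (80 * (A : ℝ) ^ 3 * D)) * (A : ℝ) ^ 3 := by
          gcongr
          exact h1.trans (mul_le_mul_of_nonneg_left h2 h3)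
      _ = ((A : ℝ) ^ 3 * ∑ n ∈ Icc 1 K, (a3 n) ^ 2) * (80 * (A : ℝ) ^ 3 * D) := by ring
      _ ≤ KP * (80 * (A : ℝ) ^ 3 * D) := by gcongr
  have hTsq' : T ^ 2 ≤ 80 * D * KP := by
    have hA3 : (0 : ℝ) < (A : ℝ) ^ 3 := by positivity
    have : T ^ 2 * (A : ℝ) ^ 3 ≤ (80 * D * KP) * (A : ℝ) ^ 3 := by linarith
    exact le_of_mul_le_mul_right this hA3
  -- power mean
  set B1 := ∑ e ∈ S, |BB F e| with hB1
  have hB10 : 0 ≤ B1 := Finset.sum_nonneg fun e _ => abs_nonneg _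
  have hpm : B1 ^ 3 ≤ (2 * D : ℝ) ^ 2 * T := by
    by_cases hS0 : S.card = 0
    · have : S = ∅ := Finset.card_eq_zero.mp hS0
      rw [hB1, hT, this]; simp
    · have h1 := pow_sum_div_card_le_sum_pow (s := S) (f := fun e => |BB F e|)
        (fun e _ => abs_nonneg _) 2
      have hc0 : (0 : ℝ) < S.card := by exact_mod_cast Nat.pos_of_ne_zero hS0
      rw [div_le_iff₀ (by positivity)] at h1
      calc B1 ^ 3 ≤ T * (S.card : ℝ) ^ 2 := h1
        _ ≤ T * (2 * D : ℝ) ^ 2 := by gcongr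
        _ = _ := by ring
  have hX : |∑ e ∈ S, w e * BB F e| ≤ B1 / D := by
    refine (Finset.abs_sum_le_sum_abs _ _).trans ?_
    rw [hB1, Finset.sum_div]
    refine Finset.sum_le_sum fun e he => ?_
    rw [abs_mul]
    calc |w e| * |BB F e| ≤ 1 / D * |BB F e| := mul_le_mul_of_nonneg_right (hw e he) (abs_nonneg _)
      _ = _ := by ring
  have hX6 : |∑ e ∈ S, w e * BB F e| ^ 6 ≤ B1 ^ 6 / D ^ 6 := by
    calc |∑ e ∈ S, w e * BB F e| ^ 6 ≤ (B1 / D) ^ 6 := by gcongr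
      _ = _ := div_pow _ _ _
  calc |∑ e ∈ S, w e * BB F e| ^ 6 * D ≤ B1 ^ 6 / D ^ 6 * D := by gcongr
    _ = (B1 ^ 3) ^ 2 / D ^ 5 := by field_simp
    _ ≤ ((2 * D : ℝ) ^ 2 * T) ^ 2 / D ^ 5 := by gcongr
    _ = 16 * T ^ 2 / D := by field_simp; ring
    _ ≤ 16 * (80 * D * KP) / D := by gcongr
    _ = 1280 * KP := by field_simp; ring

end Pool.Agent.C1M
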