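import Mathlib
import Pool.Agent.C1M.FM6

set_option autoImplicit false

/-!
# Reciprocity, nonsquares, Euler products over the primes `1 mod 8`
-/

namespace Pool.Agent.C1M

open Finset Pool.Agent.HyperWeil

/-- Euler product over a set of primes. -/
noncomputable def EPs (P : Finset ℕ) (D : ℤ) : ℝ := ∏ p ∈ P, (1 + cc p * (psi D p : ℝ))

lemma EPs_eq_sum (P : Finset ℕ) (D : ℤ) :
    EPs P D = ∑ U ∈ P.powerset, cw U * (psi D (pr U) : ℝ) := by
  unfold EPs
  rw [Finset.prod_one_add]
  refine Finset.sum_congr rfl fun U _ => ?_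
  rw [Finset.prod_mul_distrib, psi_pr]
  push_cast
  rfl

lemma cc_le_one (p : ℕ) : cc p ≤ 1 := by
  unfold cc
  rw [div_le_one (by positivity)]
  have : (0 : ℝ) ≤ p := Nat.cast_nonneg p
  linarith

lemma psi_ge (D : ℤ) (p : ℕ) : (-1 : ℝ) ≤ (psi D p : ℝ) := by
  have := (abs_le.mp (abs_psi_le D p)).1
  exact_mod_cast this

lemma psi_le' (D : ℤ) (p : ℕ) : (psi D p : ℝ) ≤ 1 := by
  have := (abs_le.mp (abs_psi_le D p)).2
  exact_mod_cast this

lemma abs_psi_real (D : ℤ) (p : ℕ) : |(psi D p : ℝ)| ≤ 1 :=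
  abs_le.mpr ⟨psi_ge D p, psi_le' D p⟩

lemma EPs_nonneg (P : Finset ℕ) (D : ℤ) : 0 ≤ EPs P D := by
  unfold EPs
  refine Finset.prod_nonneg fun p _ => ?_
  have h4 := psi_ge D p
  have h5 := cc_le_one p
  have h6 := cc_nonneg p
  nlinarith

lemma EPs_le_exp {P : Finset ℕ} (hP : ∀ p ∈ P, p.Prime) (D : ℤ) {z : ℕ} (hz : P ⊆ PR z) :
    EPs P D ≤ Real.exp ((1 / 2) * ∑ p ∈ P, (psi D p : ℝ) / p + 1 / 2) := by
  have hfac : ∀ p ∈ P, 1 + cc p * (psi D p : ℝ) ≤ Real.exp (cc p * (psi D p : ℝ)) := by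
    intro p _
    have := Real.add_one_le_exp (cc p * (psi D p : ℝ))
    linarith
  have hfac0 : ∀ p ∈ P, 0 ≤ 1 + cc p * (psi D p : ℝ) := by
    intro p _
    have h4 := psi_ge D p
    have h5 := cc_le_one p
    have h6 := cc_nonneg p
    nlinarith
  have h4 : EPs P D ≤ Real.exp (∑ p ∈ P, cc p * (psi D p : ℝ)) := by
    unfold EPs
    rw [Real.exp_sum]
    exact Finset.prod_le_prod hfac0 hfac
  refine h4.trans (Real.exp_le_exp.mpr ?_)
  have h6 : ∀ p ∈ P, cc p * (psi D p : ℝ) ≤ (1 / 2) * ((psi D p : ℝ) / p) +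
      (1 / 4) * (1 / (p : ℝ) ^ 2) := by
    intro p hp
    have hp0 : (0 : ℝ) < p := by exact_mod_cast (hP p hp).pos
    have h7 := psi_ge D p
    have e : (1 / 2) * ((psi D p : ℝ) / p) - cc p * (psi D p : ℝ)
        = (psi D p : ℝ) * (1 / (2 * p * (2 * p + 1))) := by
      unfold cc; field_simp; ring
    have h8 : (1 : ℝ) / (2 * p * (2 * p + 1)) ≤ (1 / 4) * (1 / (p : ℝ) ^ 2) := by
      rw [div_mul_div_comm, one_mul]
      apply one_div_le_one_div_of_le (by positivity)
      nlinarith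
    have h9 : 0 ≤ (1 : ℝ) / (2 * p * (2 * p + 1)) := by positivity
    nlinarith
  have h7 := Finset.sum_le_sum h6
  rw [Finset.sum_add_distrib, ← Finset.mul_sum, ← Finset.mul_sum] at h7
  have h8 : ∑ p ∈ P, 1 / (p : ℝ) ^ 2 ≤ 2 :=
    (Finset.sum_le_sum_of_subset_of_nonneg hz
      fun p _ _ => by positivity).trans (sum_PR_inv_sq_le z)
  linarith

lemma not_isSquare_of_squarefree {D : ℤ} (hD : Squarefree D) (h1 : D.natAbs ≠ 1) : ¬ IsSquare D := by
  rintro ⟨s, hs⟩
  have h2 : IsUnit s := hD s ⟨1, by rw [hs]; ring⟩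
  rcases Int.isUnit_iff.mp h2 with h3 | h3 <;> rw [h3] at hs <;> rw [hs] at h1 <;> exact h1 rfl

lemma sum_P8_psi_le {D : ℤ} (hD : Squarefree D) (h1 : D.natAbs ≠ 1) (hodd : D.natAbs % 2 = 1) (z : ℕ) :
    ∑ p ∈ P8 z, (psi D p : ℝ) / p ≤ Real.log (3 + Real.log (8 * D.natAbs : ℕ)) + 20 ∧
    ∑ p ∈ (P8 z).filter (fun p => p % 8 = 1), (psi D p : ℝ) / p
      ≤ Real.log (3 + Real.log (8 * D.natAbs : ℕ)) + 20 := by
  have hD0 : D ≠ 0 := hD.ne_zero
  have hDa : 0 < D.natAbs := Int.natAbs_pos.mpr hD0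
  have hlq0 : 0 ≤ Real.log (8 * D.natAbs : ℕ) := Real.log_natCast_nonneg _
  set A := 3 + Real.log (8 * D.natAbs : ℕ) with hA
  -- the bound for all twists
  have key : ∀ t : ℤ, t = 1 ∨ t = -1 ∨ t = 2 ∨ t = -2 →
      ∑ p ∈ PR z, (psi (t * D) p : ℝ) / p ≤ Real.log A + 20 := by
    intro t ht
    have htD : (t * D).natAbs = D.natAbs ∨ (t * D).natAbs = 2 * D.natAbs := by
      rcases ht with h | h | h | h <;> subst h <;> rw [Int.natAbs_mul]
      · left; simp
      · left; simp
      · right; simp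
      · right; simp
    have hsq : Squarefree (t * D) := by
      rw [← Int.squarefree_natAbs]
      rcases htD with h | h
      · rw [h, Int.squarefree_natAbs]; exact hD
      · rw [h, Nat.squarefree_mul]
        · exact ⟨Nat.prime_two.squarefree, Int.squarefree_natAbs.mpr hD⟩
        · exact (Nat.coprime_primes Nat.prime_two Nat.prime_two |>.mpr.mt (by simp) |> fun _ =>
            Nat.coprime_two_left.mpr (Nat.odd_iff.mpr hodd))
    have hne1 : (t * D).natAbs ≠ 1 := by
      rcases htD with h | h <;> rw [h]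
      · exact h1
      · omega
    have h2 := sum_psi_div_le hsq.ne_zero (not_isSquare_of_squarefree hsq hne1) z
    refine h2.trans ?_
    have h3 : Real.log (4 * (t * D).natAbs : ℕ) ≤ Real.log (8 * D.natAbs : ℕ) := by
      apply Real.log_le_log
      · have : 0 < 4 * (t * D).natAbs := by
          have := Int.natAbs_pos.mpr hsq.ne_zero
          omega
        exact_mod_cast this
      · have : 4 * (t * D).natAbs ≤ 8 * D.natAbs := by
          rcases htD with h | h <;> rw [h] <;> omega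
        exact_mod_cast this
    have h4 : 0 ≤ Real.log (4 * (t * D).natAbs : ℕ) := Real.log_natCast_nonneg _
    have h5 : Real.log (3 + Real.log (4 * (t * D).natAbs : ℕ)) ≤ Real.log A :=
      Real.log_le_log (by linarith) (by linarith)
    linarith
  have k1 := key 1 (Or.inl rfl)
  have k2 := key (-1) (Or.inr (Or.inl rfl))
  have k3 := key 2 (Or.inr (Or.inr (Or.inl rfl)))
  have k4 := key (-2) (Or.inr (Or.inr (Or.inr rfl)))
  rw [one_mul] at k1
  constructor
  · rw [sum_P8_psi]
    linarith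
  · have hsub : (P8 z).filter (fun p => p % 8 = 1) ⊆ PR z :=
      (Finset.filter_subset _ _).trans (P8_subset_PR z)
    have h2 : ∑ p ∈ (P8 z).filter (fun p => p % 8 = 1), (psi D p : ℝ) / p
        = (1 / 4) * (∑ p ∈ PR z, (psi D p : ℝ) / p + ∑ p ∈ PR z, (psi (-1 * D) p : ℝ) / p +
          ∑ p ∈ PR z, (psi (2 * D) p : ℝ) / p + ∑ p ∈ PR z, (psi (-2 * D) p : ℝ) / p) := by
      rw [← Finset.sum_add_distrib, ← Finset.sum_add_distrib, ← Finset.sum_add_distrib,
        Finset.mul_sum]
      rw [← Finset.sum_subset hsub]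
      · refine Finset.sum_congr rfl fun p hp => ?_
        rw [mem_filter] at hp
        have h1 := odd_of_mem_P8 hp.1
        have e1 : psi (-1) p = 1 := by
          unfold psi
          rw [if_pos h1, jacobiSym.at_neg_one (Nat.odd_iff.mpr h1),
            ZMod.χ₄_nat_one_mod_four (by omega)]
        have e2 : psi 2 p = 1 := by
          rw [psi_two_eq h1, if_pos (Or.inl hp.2)]
        have e3 : psi (-2) p = 1 := by
          rw [show (-2 : ℤ) = -1 * 2 by norm_num, psi_mul_left, e1, e2]; norm_num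
        rw [psi_mul_left, psi_mul_left, psi_mul_left, e1, e2, e3]
        push_cast
        ring
      · intro p hp hpn
        rw [mem_PR] at hp
        by_cases h2 : p % 2 = 1
        · have hn1 : p % 8 ≠ 1 := by
            intro h
            exact hpn (mem_filter.mpr ⟨mem_P8.mpr ⟨hp.1, hp.2, Or.inl h⟩, h⟩)
          have e1 : psi (-1) p = if p % 4 = 1 then 1 else -1 := by
            unfold psi
            rw [if_pos h2, jacobiSym.at_neg_one (Nat.odd_iff.mpr h2)]
            split_ifs with h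
            · exact ZMod.χ₄_nat_one_mod_four h
            · exact ZMod.χ₄_nat_three_mod_four (by omega)
          have e2 := psi_two_eq h2
          have e3 : psi (-2) p = psi (-1) p * psi 2 p := by
            rw [show (-2 : ℤ) = -1 * 2 by norm_num, psi_mul_left]
          have e4 : (1 + psi (-1) p) * (1 + psi 2 p) = 0 := by
            rw [e1, e2]
            have : p % 8 = 3 ∨ p % 8 = 5 ∨ p % 8 = 7 := by omega
            rcases this with h | h | h
            · rw [if_neg (by omega), if_neg (by omega)]; norm_num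
            · rw [if_pos (by omega), if_neg (by omega)]; norm_num
            · rw [if_neg (by omega), if_pos (by omega)]; norm_num
          have e5 : ((1 : ℝ) + psi (-1) p) * (1 + psi 2 p) = 0 := by exact_mod_cast e4
          rw [psi_mul_left, psi_mul_left, psi_mul_left, e3]
          push_cast
          have : (1 / 4 : ℝ) * ((psi D p : ℝ) / p + (psi (-1) p : ℝ) * (psi D p : ℝ) / p +
              (psi 2 p : ℝ) * (psi D p : ℝ) / p + (psi (-1) p : ℝ) * (psi 2 p : ℝ) * (psi D p : ℝ) / p)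
              = (1 / 4) * ((psi D p : ℝ) / p) * (((1 : ℝ) + psi (-1) p) * (1 + psi 2 p)) := by ring
          rw [this, e5, mul_zero]
        · have e : ∀ E : ℤ, psi E p = 0 := fun E => if_neg h2
          rw [e, e, e, e]
          simp
    rw [h2]
    linarith

/-- Euler product bound for both sets of primes. -/
theorem EPs_le {D : ℤ} (hD : Squarefree D) (h1 : D.natAbs ≠ 1) (hodd : D.natAbs % 2 = 1) (z : ℕ)
    {P : Finset ℕ} (hP : P = P8 z ∨ P = (P8 z).filter (fun p => p % 8 = 1)) :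
    EPs P D ≤ Real.exp 11 * (3 + Real.log (8 * D.natAbs : ℕ)) ^ ((1 : ℝ) / 2) := by
  have hlq0 : 0 ≤ Real.log (8 * D.natAbs : ℕ) := Real.log_natCast_nonneg _
  set A := 3 + Real.log (8 * D.natAbs : ℕ) with hA
  have hA0 : 0 < A := by linarith
  have hsub : P ⊆ P8 z := by
    rcases hP with h | h
    · rw [h]
    · rw [h]; exact Finset.filter_subset _ _
  have hPp : ∀ p ∈ P, p.Prime := fun p hp => (mem_P8.mp (hsub hp)).2.1
  have h2 := EPs_le_exp hPp D (hsub.trans (P8_subset_PR z))
  have h3 : ∑ p ∈ P, (psi D p : ℝ) / p ≤ Real.log A + 20 := by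
    rcases hP with h | h
    · rw [h]; exact (sum_P8_psi_le hD h1 hodd z).1
    · rw [h]; exact (sum_P8_psi_le hD h1 hodd z).2
  calc EPs P D ≤ Real.exp ((1 / 2) * ∑ p ∈ P, (psi D p : ℝ) / p + 1 / 2) := h2
    _ ≤ Real.exp ((1 / 2) * Real.log A + 11) := Real.exp_le_exp.mpr (by linarith)
    _ = Real.exp 11 * A ^ ((1 : ℝ) / 2) := by
        rw [Real.exp_add, Real.rpow_def_of_pos hA0]
        ring_nf

/-! ### Reciprocity -/

lemma pr_odd {z : ℕ} {U : Finset ℕ} (hU : U ⊆ P8 z) : pr U % 2 = 1 := by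
  unfold pr
  rw [← Nat.odd_iff]
  induction U using Finset.induction_on with
  | empty => simp
  | insert a s ha ih =>
    rw [Finset.prod_insert ha]
    refine Odd.mul ?_ (ih fun p hp => hU (Finset.mem_insert_of_mem hp))
    rw [Nat.odd_iff]
    exact odd_of_mem_P8 (hU (Finset.mem_insert_self _ _))

lemma pr_squarefree {U : Finset ℕ} (hU : ∀ p ∈ U, p.Prime) : Squarefree (pr U) := by
  unfold pr
  induction U using Finset.induction_on with
  | empty => simp
  | insert a s ha ih =>
    rw [Finset.prod_insert ha, Nat.squarefree_mul]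
    · exact ⟨(hU a (Finset.mem_insert_self _ _)).squarefree,
        ih fun p hp => hU p (Finset.mem_insert_of_mem hp)⟩
    · refine Nat.Coprime.prod_right fun p hp => ?_
      rw [Nat.coprime_primes (hU a (Finset.mem_insert_self _ _))
        (hU p (Finset.mem_insert_of_mem hp))]
      rintro rfl
      exact ha hp

/-- The signed discriminant. -/
def fs (U : Finset ℕ) : ℤ := if pr U % 4 = 1 then (pr U : ℤ) else -(pr U : ℤ)

lemma fs_natAbs (U : Finset ℕ) : (fs U).natAbs = pr U := by
  unfold fs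
  split_ifs <;> simp

lemma reciprocity {z : ℕ} {T U : Finset ℕ} (hT : T ⊆ P8 z) (hU : U ⊆ P8 z) :
    psi (pr T : ℤ) (pr U) = psi (fs U) (pr T) := by
  have hTo := pr_odd hT
  have hUo := pr_odd hU
  unfold psi
  rw [if_pos hUo, if_pos hTo]
  rw [jacobiSym.quadratic_reciprocity (Nat.odd_iff.mpr hTo) (Nat.odd_iff.mpr hUo)]
  unfold fs
  split_ifs with h
  · have : Even (pr U / 2) := by
      rw [Nat.even_iff]; omega
    rw [(this.mul_left (pr T / 2)).neg_one_pow, one_mul]
  · have hodd : Odd (pr U / 2) := by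
      rw [Nat.odd_iff]; omega
    rw [show -((pr U : ℕ) : ℤ) = -1 * ((pr U : ℕ) : ℤ) by ring, jacobiSym.mul_left,
      jacobiSym.at_neg_one (Nat.odd_iff.mpr hTo)]
    congr 1
    rw [ZMod.χ₄_eq_neg_one_pow hTo, mul_comm, pow_mul, hodd.neg_one_pow]

end Pool.Agent.C1M
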