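import Mathlib
import Pool.Agent.C1M.FM7

set_option autoImplicit false

/-!
# Estimate of the double sum: pieces
-/

namespace Pool.Agent.C1M

open Finset Pool.Agent.HyperWeil

lemma cc_le_inv {p : ℕ} (hp : 0 < p) : cc p ≤ 1 / (p : ℝ) := by
  have hp0 : (0 : ℝ) < p := by exact_mod_cast hp
  unfold cc
  apply one_div_le_one_div_of_le hp0
  linarith

lemma cc_le_half {p : ℕ} (hp : 0 < p) : cc p ≤ (1 / 2) / (p : ℝ) := by
  have hp0 : (0 : ℝ) < p := by exact_mod_cast hp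
  unfold cc
  rw [div_div]
  apply one_div_le_one_div_of_le (by positivity)
  linarith

lemma cw_le_inv {U : Finset ℕ} (hU : ∀ p ∈ U, p.Prime) : cw U ≤ 1 / ((pr U : ℕ) : ℝ) := by
  unfold cw pr
  rw [Nat.cast_prod, one_div, ← Finset.prod_inv_distrib]
  refine Finset.prod_le_prod (fun p _ => cc_nonneg p) fun p hp => ?_
  rw [← one_div]
  exact cc_le_inv (hU p hp).pos

/-- Sum of the weights of the sets with product below `W`. -/
lemma sum_cw_small {F : Finset (Finset ℕ)} (hF : ∀ U ∈ F, ∀ p ∈ U, p.Prime) {W : ℕ}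
    (hW : ∀ U ∈ F, pr U ≤ W) : ∑ U ∈ F, cw U ≤ 1 + Real.log W := by
  refine le_trans ?_ (Hm_le W)
  unfold Hm
  calc ∑ U ∈ F, cw U ≤ ∑ U ∈ F, 1 / ((pr U : ℕ) : ℝ) :=
        Finset.sum_le_sum fun U hU => cw_le_inv (hF U hU)
    _ = ∑ n ∈ F.image pr, 1 / (n : ℝ) := by
        rw [Finset.sum_image]
        intro S hS T hT h
        exact pr_injOn (hF S hS) (hF T hT) h
    _ ≤ ∑ n ∈ Ioc 0 W, 1 / (n : ℝ) := by
        refine Finset.sum_le_sum_of_subset_of_nonneg ?_ fun n _ _ => by positivity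
        intro n hn
        obtain ⟨U, hU, rfl⟩ := Finset.mem_image.mp hn
        rw [mem_Ioc]
        exact ⟨pr_pos (hF U hU), hW U hU⟩

/-- The bilinear bound for families of sets. -/
lemma bil2 {P : Finset ℕ} (hP : ∀ p ∈ P, p.Prime) {G F : Finset (Finset ℕ)}
    (hG : ∀ T ∈ G, T ⊆ P) (hF : ∀ U ∈ F, U ⊆ P) (ep : Finset ℕ → ℤ)
    (hep : ∀ T, (ep T).natAbs = pr T) {A D : ℕ} (hD1 : 1 ≤ D) (hDA : D ≤ A)
    (hGD : ∀ T ∈ G, D ≤ pr T ∧ pr T < 2 * D) (hFA : ∀ U ∈ F, A ≤ pr U ∧ pr U < 2 * A) :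
    |∑ T ∈ G, cw T * BB F (ep T)| ^ 6 * D ≤ 1280 * (∏ p ∈ P, (1 + 1 / (p : ℝ))) ^ 4 := by
  classical
  have hGp : ∀ T ∈ G, ∀ p ∈ T, p.Prime := fun T hT p hp => hP p (hG T hT hp)
  set w : ℤ → ℝ := fun e => cw e.natAbs.primeFactors with hw
  have hwe : ∀ T ∈ G, w (ep T) = cw T := by
    intro T hT
    simp only [hw]
    rw [hep, primeFactors_pr (hGp T hT)]
  have hinj : ∀ T ∈ G, ∀ T' ∈ G, ep T = ep T' → T = T' := by
    intro T hT T' hT' h
    apply pr_injOn (hGp T hT) (hGp T' hT')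
    rw [← hep, ← hep, h]
  have hsum : ∑ T ∈ G, cw T * BB F (ep T) = ∑ e ∈ G.image ep, w e * BB F e := by
    rw [Finset.sum_image hinj]
    refine Finset.sum_congr rfl fun T hT => ?_
    rw [hwe T hT]
  rw [hsum]
  refine bil hP hF hD1 hDA (fun U hU => (hFA U hU).1) (fun U hU => (hFA U hU).2.le)
    (G.image ep) ?_ ?_ ?_ w ?_
  · intro e he
    obtain ⟨T, hT, rfl⟩ := Finset.mem_image.mp he
    rw [← Int.squarefree_natAbs, hep]
    exact pr_squarefree (hGp T hT)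
  · intro e he
    obtain ⟨T, hT, rfl⟩ := Finset.mem_image.mp he
    rw [hep]; exact (hGD T hT).2.le
  · rw [Finset.card_image_of_injOn hinj]
    have h1 : G.card = (G.image pr).card := by
      rw [Finset.card_image_of_injOn]
      intro T hT T' hT' h
      exact pr_injOn (hGp T hT) (hGp T' hT') h
    rw [h1]
    have h2 : G.image pr ⊆ Ico D (2 * D) := by
      intro n hn
      obtain ⟨T, hT, rfl⟩ := Finset.mem_image.mp hn
      rw [mem_Ico]; exact hGD T hT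
    refine (Finset.card_le_card h2).trans ?_
    rw [Nat.card_Ico]; omega
  · intro e he
    obtain ⟨T, hT, rfl⟩ := Finset.mem_image.mp he
    rw [hwe T hT, abs_of_nonneg (cw_nonneg T)]
    refine (cw_le_inv (hGp T hT)).trans ?_
    apply one_div_le_one_div_of_le
    · exact_mod_cast (by omega : 0 < D)
    · exact_mod_cast (hGD T hT).1

/-- The block of a family: `2^i ≤ pr T < 2^(i+1)`. -/
def blk (G : Finset (Finset ℕ)) (i : ℕ) : Finset (Finset ℕ) :=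
  G.filter (fun T => Nat.log 2 (pr T) = i)

lemma mem_blk_bounds {G : Finset (Finset ℕ)} {i : ℕ} (hG : ∀ T ∈ G, ∀ p ∈ T, p.Prime) :
    ∀ T ∈ blk G i, 2 ^ i ≤ pr T ∧ pr T < 2 * 2 ^ i := by
  intro T hT
  unfold blk at hT
  rw [mem_filter] at hT
  have h0 := pr_pos (hG T hT.1)
  have := (Nat.log_eq_iff (b := 2) (m := i) (n := pr T) (Or.inr ⟨by norm_num, h0.ne'⟩)).mp hT.2
  rw [pow_succ] at this
  omega

/-- The block sums are small. -/
lemma block_bound {z : ℕ} {G F : Finset (Finset ℕ)} (hG : ∀ T ∈ G, T ⊆ P8 z)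
    (hF : ∀ U ∈ F, U ⊆ P8 z) (w i j : ℕ) (hi : w ≤ i) (hj : w ≤ j) :
    |∑ T ∈ blk G i, ∑ U ∈ blk F j, cw T * cw U * (psi (pr T : ℤ) (pr U) : ℝ)| ^ 6 * 2 ^ w
      ≤ 1280 * (ZZ z) ^ 4 := by
  have hP : ∀ p ∈ P8 z, p.Prime := fun p hp => (mem_P8.mp hp).2.1
  have hGp : ∀ T ∈ G, ∀ p ∈ T, p.Prime := fun T hT p hp => hP p (hG T hT hp)
  have hFp : ∀ T ∈ F, ∀ p ∈ T, p.Prime := fun T hT p hp => hP p (hF T hT hp)
  have hGb := mem_blk_bounds (i := i) hGp
  have hFb := mem_blk_bounds (i := j) hFp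
  have hGs : ∀ T ∈ blk G i, T ⊆ P8 z := fun T hT => hG T (Finset.mem_filter.mp hT).1
  have hFs : ∀ T ∈ blk F j, T ⊆ P8 z := fun T hT => hF T (Finset.mem_filter.mp hT).1
  rw [ZZ_eq_prod]
  set X := ∑ T ∈ blk G i, ∑ U ∈ blk F j, cw T * cw U * (psi (pr T : ℤ) (pr U) : ℝ) with hX
  have key : ∀ k : ℕ, w ≤ k → |X| ^ 6 * ((2 ^ k : ℕ) : ℝ)
      ≤ 1280 * (∏ p ∈ P8 z, (1 + 1 / (p : ℝ))) ^ 4 →
      |X| ^ 6 * 2 ^ w ≤ 1280 * (∏ p ∈ P8 z, (1 + 1 / (p : ℝ))) ^ 4 := by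
    intro k hk h
    refine le_trans ?_ h
    push_cast
    gcongr
    norm_num
  rcases le_total i j with hij | hij
  · refine key i hi ?_
    have h1 := bil2 hP hGs hFs (fun T => (pr T : ℤ)) (fun T => Int.natAbs_natCast _)
      (D := 2 ^ i) (A := 2 ^ j) Nat.one_le_two_pow (Nat.pow_le_pow_right (by norm_num) hij) hGb hFb
    have h2 : X = ∑ T ∈ blk G i, cw T * BB (blk F j) ((pr T : ℕ) : ℤ) := by
      rw [hX]
      refine Finset.sum_congr rfl fun T _ => ?_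
      unfold BB
      rw [Finset.mul_sum]
      exact Finset.sum_congr rfl fun U _ => by ring
    rw [h2]
    exact h1
  · refine key j hj ?_
    have h1 := bil2 hP hFs hGs fs fs_natAbs
      (D := 2 ^ j) (A := 2 ^ i) Nat.one_le_two_pow (Nat.pow_le_pow_right (by norm_num) hij) hFb hGb
    have h2 : X = ∑ U ∈ blk F j, cw U * BB (blk G i) (fs U) := by
      rw [hX, Finset.sum_comm]
      refine Finset.sum_congr rfl fun U hU => ?_
      unfold BB
      rw [Finset.mul_sum]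
      refine Finset.sum_congr rfl fun T hT => ?_
      rw [reciprocity (hGs T hT) (hFs U hU)]
      ring
    rw [h2]
    exact h1

lemma prod_cc_le {z : ℕ} {P : Finset ℕ} (hP : P ⊆ P8 z) : ∏ p ∈ P, (1 + cc p) ≤ QQ z := by
  unfold QQ
  rw [Finset.prod_one_add, Finset.prod_one_add]
  exact Finset.sum_le_sum_of_subset_of_nonneg (Finset.powerset_mono.mpr hP)
    fun U _ _ => Finset.prod_nonneg fun p _ => cc_nonneg p

/-- Tail of the weights. -/
lemma tail_cw {z : ℕ} (hz : 3 ≤ z) {P : Finset ℕ} (hP : P ⊆ P8 z) {Y : ℝ} (hY : 0 < Y) :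
    ∑ S ∈ P.powerset.filter (fun S => Y < ((pr S : ℕ) : ℝ)), cw S
      ≤ Y ^ (-(1 / Real.log z)) * (Real.exp (5 / 2) * QQ z) := by
  have hlz := one_le_log hz
  have h1 := rankin (P := P) (b := cc) (fun p _ => cc_nonneg p) (σ := 1 / Real.log z)
    (by positivity) hY
  have h2 := prod_rpow_le hz (b := cc) (β := 1 / 2) (by norm_num) (hP.trans (P8_subset_PR z))
    (fun p _ => cc_nonneg p) (fun p hp => cc_le_half (mem_P8.mp (hP hp)).2.1.pos)
  have h3 : ∏ p ∈ P, (1 + cc p) ≤ QQ z := prod_cc_le hP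
  have hYp : 0 ≤ Y ^ (-(1 / Real.log z)) := Real.rpow_nonneg hY.le _
  calc _ ≤ Y ^ (-(1 / Real.log z)) * ∏ p ∈ P, (1 + cc p * (p : ℝ) ^ (1 / Real.log z)) := h1
    _ ≤ Y ^ (-(1 / Real.log z)) * (Real.exp (5 * (1 / 2)) * ∏ p ∈ P, (1 + cc p)) :=
        mul_le_mul_of_nonneg_left h2 hYp
    _ ≤ Y ^ (-(1 / Real.log z)) * (Real.exp (5 / 2) * QQ z) := by
        rw [show (5 : ℝ) * (1 / 2) = 5 / 2 by norm_num]
        gcongr

end Pool.Agent.C1M
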