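import Mathlib
import Pool.Agent.C1M.FM8

set_option autoImplicit false

/-!
# Estimate of the double sum
-/

namespace Pool.Agent.C1M

open Finset Pool.Agent.HyperWeil

/-- The summand. -/
noncomputable def aa (T U : Finset ℕ) : ℝ := cw T * cw U * (psi (pr T : ℤ) (pr U) : ℝ)

lemma abs_aa_le (T U : Finset ℕ) : |aa T U| ≤ cw T * cw U := by
  unfold aa
  rw [abs_mul, abs_of_nonneg (mul_nonneg (cw_nonneg T) (cw_nonneg U))]
  calc cw T * cw U * |(psi (pr T : ℤ) (pr U) : ℝ)| ≤ cw T * cw U * 1 :=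
        mul_le_mul_of_nonneg_left (abs_psi_real _ _) (mul_nonneg (cw_nonneg T) (cw_nonneg U))
    _ = _ := mul_one _

lemma abs_sum_aa_le (G F : Finset (Finset ℕ)) :
    |∑ T ∈ G, ∑ U ∈ F, aa T U| ≤ (∑ T ∈ G, cw T) * ∑ U ∈ F, cw U := by
  rw [Finset.sum_mul_sum]
  refine (Finset.abs_sum_le_sum_abs _ _).trans (Finset.sum_le_sum fun T _ => ?_)
  refine (Finset.abs_sum_le_sum_abs _ _).trans (Finset.sum_le_sum fun U _ => abs_aa_le T U)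

/-- The nonempty subsets. -/
def NE (P : Finset ℕ) : Finset (Finset ℕ) := P.powerset.filter (fun T => T ≠ ∅)

lemma mem_NE {P T : Finset ℕ} : T ∈ NE P ↔ T ⊆ P ∧ T ≠ ∅ := by
  unfold NE; rw [mem_filter, mem_powerset]

lemma sum_NE (P : Finset ℕ) (f : Finset ℕ → ℝ) :
    ∑ T ∈ P.powerset, f T = f ∅ + ∑ T ∈ NE P, f T := by
  unfold NE
  rw [← Finset.sum_filter_add_sum_filter_not P.powerset (fun T => T = ∅)]
  congr 1
  rw [Finset.sum_filter, Finset.sum_ite_eq' P.powerset ∅ f, if_pos (Finset.empty_mem_powerset P)]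

/-- The double sum over nonempty sets. -/
noncomputable def RR (z : ℕ) (P : Finset ℕ) : ℝ := ∑ T ∈ NE P, ∑ U ∈ NE (P8 z), aa T U

lemma cw_empty : cw ∅ = 1 := by unfold cw; simp

lemma pr_empty : pr ∅ = 1 := by unfold pr; simp

lemma EPs_sub_one (P : Finset ℕ) (D : ℤ) :
    EPs P D - 1 = ∑ U ∈ NE P, cw U * (psi D (pr U) : ℝ) := by
  rw [EPs_eq_sum, sum_NE, cw_empty, pr_empty, psi_one]
  push_cast; ring

lemma pr_ne_one {T : Finset ℕ} (hT : ∀ p ∈ T, p.Prime) (hne : T ≠ ∅) : pr T ≠ 1 := by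
  intro h
  apply hne
  rw [← primeFactors_pr hT, h]
  simp

lemma sum_cw_le_QQ {z : ℕ} {P : Finset ℕ} (hP : P ⊆ P8 z) {G : Finset (Finset ℕ)}
    (hG : ∀ T ∈ G, T ⊆ P) : ∑ T ∈ G, cw T ≤ QQ z := by
  rw [QQ_eq_sum]
  refine Finset.sum_le_sum_of_subset_of_nonneg ?_ fun U _ _ => cw_nonneg U
  intro T hT
  rw [mem_powerset]
  exact (hG T hT).trans hP

/-- Euler product bound in the range `d ≤ W`. -/
lemma EPs_le_W {z : ℕ} {P : Finset ℕ} (hP : P = P8 z ∨ P = (P8 z).filter (fun p => p % 8 = 1))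
    {D : ℤ} {T : Finset ℕ} (hT : T ∈ NE (P8 z)) (hD : D.natAbs = pr T) {W : ℕ} (hW : pr T ≤ W) :
    |EPs P D - 1| ≤ Real.exp 11 * (3 + Real.log (8 * W : ℕ)) := by
  rw [mem_NE] at hT
  have hTp : ∀ p ∈ T, p.Prime := fun p hp => (mem_P8.mp (hT.1 hp)).2.1
  have h1 : Squarefree D := by rw [← Int.squarefree_natAbs, hD]; exact pr_squarefree hTp
  have h2 : D.natAbs ≠ 1 := by rw [hD]; exact pr_ne_one hTp hT.2
  have h3 : D.natAbs % 2 = 1 := by rw [hD]; exact pr_odd hT.1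
  have h4 := EPs_le h1 h2 h3 z hP
  have h0 := pr_pos hTp
  have h5 : Real.log (8 * D.natAbs : ℕ) ≤ Real.log (8 * W : ℕ) := by
    apply Real.log_le_log
    · exact_mod_cast (by omega : 0 < 8 * D.natAbs)
    · exact_mod_cast (by omega : 8 * D.natAbs ≤ 8 * W)
  have h6 : 0 ≤ Real.log (8 * D.natAbs : ℕ) := Real.log_natCast_nonneg _
  set A := 3 + Real.log (8 * D.natAbs : ℕ) with hA
  have hA1 : 1 ≤ A := by linarith
  have h7 : A ^ ((1 : ℝ) / 2) ≤ A := by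
    calc A ^ ((1 : ℝ) / 2) ≤ A ^ (1 : ℝ) := Real.rpow_le_rpow_of_exponent_le hA1 (by norm_num)
      _ = A := Real.rpow_one A
  have h8 : EPs P D ≤ Real.exp 11 * (3 + Real.log (8 * W : ℕ)) := by
    refine h4.trans ?_
    refine mul_le_mul_of_nonneg_left ?_ (Real.exp_pos _).le
    linarith
  have h9 := EPs_nonneg P D
  have h10 : 1 ≤ Real.exp 11 := Real.one_le_exp (by norm_num)
  have h11 : 1 ≤ Real.exp 11 * (3 + Real.log (8 * W : ℕ)) := by nlinarith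
  rw [abs_le]
  constructor <;> linarith

/-- The range of middle blocks. -/
lemma mid_bound {z : ℕ} {G F : Finset (Finset ℕ)} (hG : ∀ T ∈ G, T ⊆ P8 z)
    (hF : ∀ U ∈ F, U ⊆ P8 z) {w y : ℕ} (hy : 1 ≤ y)
    (H1 : 1280 * (ZZ z) ^ 4 * (y : ℝ) ^ 12 ≤ 2 ^ w)
    (hGm : ∀ T ∈ G, Nat.log 2 (pr T) ∈ Ico w y) (hFm : ∀ U ∈ F, Nat.log 2 (pr U) ∈ Ico w y) :
    |∑ T ∈ G, ∑ U ∈ F, aa T U| ≤ 1 := by
  have hy0 : (0 : ℝ) < y := by exact_mod_cast hy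
  have e1 : ∑ T ∈ G, ∑ U ∈ F, aa T U
      = ∑ i ∈ Ico w y, ∑ j ∈ Ico w y, ∑ T ∈ blk G i, ∑ U ∈ blk F j, aa T U := by
    rw [← Finset.sum_fiberwise_of_maps_to (g := fun T => Nat.log 2 (pr T)) hGm]
    refine Finset.sum_congr rfl fun i _ => ?_
    rw [Finset.sum_comm (s := Ico w y)]
    refine Finset.sum_congr rfl fun T _ => ?_
    rw [← Finset.sum_fiberwise_of_maps_to (g := fun T => Nat.log 2 (pr T)) hFm]
    rfl
  have hX : ∀ i ∈ Ico w y, ∀ j ∈ Ico w y, |∑ T ∈ blk G i, ∑ U ∈ blk F j, aa T U| ≤ 1 / (y : ℝ) ^ 2 := by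
    intro i hi j hj
    rw [mem_Ico] at hi hj
    have h1 := block_bound hG hF w i j hi.1 hj.1
    set X := ∑ T ∈ blk G i, ∑ U ∈ blk F j, aa T U with hXd
    change |X| ^ 6 * 2 ^ w ≤ _ at h1
    have h2 : |X| ^ 6 * (y : ℝ) ^ 12 ≤ 1 := by
      have hw0 : (0 : ℝ) < 2 ^ w := by positivity
      have h3 : |X| ^ 6 * (y : ℝ) ^ 12 * 2 ^ w ≤ 1 * 2 ^ w := by
        calc |X| ^ 6 * (y : ℝ) ^ 12 * 2 ^ w = (|X| ^ 6 * 2 ^ w) * (y : ℝ) ^ 12 := by ring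
          _ ≤ 1280 * (ZZ z) ^ 4 * (y : ℝ) ^ 12 := by gcongr
          _ ≤ 1 * 2 ^ w := by rw [one_mul]; exact H1
      exact le_of_mul_le_mul_right h3 hw0
    have h4 : (|X| * (y : ℝ) ^ 2) ^ 6 ≤ 1 ^ 6 := by
      calc (|X| * (y : ℝ) ^ 2) ^ 6 = |X| ^ 6 * (y : ℝ) ^ 12 := by ring
        _ ≤ 1 := h2
        _ = 1 ^ 6 := by norm_num
    have h5 : |X| * (y : ℝ) ^ 2 ≤ 1 :=
      le_of_pow_le_pow_left₀ (by norm_num) (by norm_num) h4
    rw [le_div_iff₀ (by positivity)]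
    exact h5
  rw [e1]
  calc |∑ i ∈ Ico w y, ∑ j ∈ Ico w y, ∑ T ∈ blk G i, ∑ U ∈ blk F j, aa T U|
      ≤ ∑ i ∈ Ico w y, ∑ j ∈ Ico w y, 1 / (y : ℝ) ^ 2 := by
        refine (Finset.abs_sum_le_sum_abs _ _).trans (Finset.sum_le_sum fun i hi => ?_)
        exact (Finset.abs_sum_le_sum_abs _ _).trans (Finset.sum_le_sum fun j hj => hX i hi j hj)
    _ = ((y - w : ℕ) : ℝ) * (((y - w : ℕ) : ℝ) * (1 / (y : ℝ) ^ 2)) := by
        rw [Finset.sum_const, Finset.sum_const, Nat.card_Ico, nsmul_eq_mul, nsmul_eq_mul]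
    _ ≤ (y : ℝ) * ((y : ℝ) * (1 / (y : ℝ) ^ 2)) := by
        have : ((y - w : ℕ) : ℝ) ≤ y := by exact_mod_cast Nat.sub_le y w
        gcongr
    _ = 1 := by field_simp

lemma sum_filter_split (G : Finset (Finset ℕ)) (p : Finset ℕ → Prop) [DecidablePred p]
    (f : Finset ℕ → ℝ) :
    ∑ T ∈ G, f T = ∑ T ∈ G.filter p, f T + ∑ T ∈ G.filter (fun T => ¬ p T), f T :=
  (Finset.sum_filter_add_sum_filter_not _ _ _).symm

theorem RR_le {z : ℕ} (hz : 3 ≤ z) {P : Finset ℕ}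
    (hP : P = P8 z ∨ P = (P8 z).filter (fun p => p % 8 = 1)) {w y : ℕ} (hy : 1 ≤ y)
    (H1 : 1280 * (ZZ z) ^ 4 * (y : ℝ) ^ 12 ≤ 2 ^ w)
    (H2 : ((2 : ℝ) ^ (y - 1)) ^ (-(1 / Real.log z)) * (Real.exp (5 / 2) * QQ z) * QQ z ≤ 1) :
    |RR z P| ≤ 2 * (1 + Real.log (2 ^ w : ℕ)) * (Real.exp 11 * (3 + Real.log (8 * 2 ^ w : ℕ))) +
      (1 + Real.log (2 ^ w : ℕ)) ^ 2 + 3 := by
  classical
  set W : ℕ := 2 ^ w with hW
  set E := Real.exp 11 * (3 + Real.log (8 * W : ℕ)) with hE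
  set LW := 1 + Real.log (W : ℕ) with hLW
  have hLW0 : 0 ≤ LW := by have := Real.log_natCast_nonneg W; linarith
  have hE0 : 0 ≤ E := by
    have := Real.log_natCast_nonneg (8 * W)
    positivity
  have hsub : P ⊆ P8 z := by
    rcases hP with h | h
    · rw [h]
    · rw [h]; exact Finset.filter_subset _ _
  set G := NE P with hG
  set F := NE (P8 z) with hF
  have hGs : ∀ T ∈ G, T ⊆ P := fun T hT => (mem_NE.mp hT).1
  have hGs8 : ∀ T ∈ G, T ⊆ P8 z := fun T hT => (hGs T hT).trans hsub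
  have hFs : ∀ T ∈ F, T ⊆ P8 z := fun T hT => (mem_NE.mp hT).1
  have hGF : ∀ T ∈ G, T ∈ F := fun T hT => mem_NE.mpr ⟨hGs8 T hT, (mem_NE.mp hT).2⟩
  have hpr : ∀ T : Finset ℕ, T ⊆ P8 z → ∀ p ∈ T, p.Prime := fun T hT p hp => (mem_P8.mp (hT hp)).2.1
  set Gs := G.filter (fun T => pr T < W) with hGsd
  set Gb := G.filter (fun T => ¬ pr T < W) with hGbd
  set Fs := F.filter (fun T => pr T < W) with hFsd
  set Fb := F.filter (fun T => ¬ pr T < W) with hFbd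
  set Gm := Gb.filter (fun T => pr T < 2 ^ y) with hGmd
  set Gt := Gb.filter (fun T => ¬ pr T < 2 ^ y) with hGtd
  set Fm := Fb.filter (fun T => pr T < 2 ^ y) with hFmd
  set Ft := Fb.filter (fun T => ¬ pr T < 2 ^ y) with hFtd
  -- decomposition
  have d1 : RR z P = ∑ T ∈ Gs, ∑ U ∈ F, aa T U + (∑ U ∈ Fs, ∑ T ∈ G, aa T U -
      ∑ T ∈ Gs, ∑ U ∈ Fs, aa T U) + ∑ T ∈ Gb, ∑ U ∈ Fb, aa T U := by
    have e1 : RR z P = ∑ T ∈ Gs, ∑ U ∈ F, aa T U + ∑ T ∈ Gb, ∑ U ∈ F, aa T U :=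
      sum_filter_split G _ _
    have e2 : ∑ T ∈ Gb, ∑ U ∈ F, aa T U
        = ∑ T ∈ Gb, ∑ U ∈ Fs, aa T U + ∑ T ∈ Gb, ∑ U ∈ Fb, aa T U := by
      rw [← Finset.sum_add_distrib]
      exact Finset.sum_congr rfl fun T _ => sum_filter_split F _ _
    have e3 : ∑ U ∈ Fs, ∑ T ∈ G, aa T U
        = ∑ T ∈ Gs, ∑ U ∈ Fs, aa T U + ∑ T ∈ Gb, ∑ U ∈ Fs, aa T U := by
      rw [Finset.sum_comm]
      exact sum_filter_split G _ _
    rw [e1, e2, e3]; ring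
  have d2 : ∑ T ∈ Gb, ∑ U ∈ Fb, aa T U = ∑ T ∈ Gt, ∑ U ∈ Fb, aa T U +
      ∑ T ∈ Gm, ∑ U ∈ Ft, aa T U + ∑ T ∈ Gm, ∑ U ∈ Fm, aa T U := by
    have e1 : ∑ T ∈ Gb, ∑ U ∈ Fb, aa T U
        = ∑ T ∈ Gm, ∑ U ∈ Fb, aa T U + ∑ T ∈ Gt, ∑ U ∈ Fb, aa T U := sum_filter_split Gb _ _
    have e2 : ∑ T ∈ Gm, ∑ U ∈ Fb, aa T U
        = ∑ T ∈ Gm, ∑ U ∈ Fm, aa T U + ∑ T ∈ Gm, ∑ U ∈ Ft, aa T U := by
      rw [← Finset.sum_add_distrib]
      exact Finset.sum_congr rfl fun T _ => sum_filter_split Fb _ _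
    rw [e1, e2]; ring
  -- subset facts
  have mGs : ∀ T ∈ Gs, T ∈ G ∧ pr T < W := fun T hT => Finset.mem_filter.mp hT
  have mFs : ∀ T ∈ Fs, T ∈ F ∧ pr T < W := fun T hT => Finset.mem_filter.mp hT
  have mGb : ∀ T ∈ Gb, T ∈ G ∧ ¬ pr T < W := fun T hT => Finset.mem_filter.mp hT
  have mFb : ∀ T ∈ Fb, T ∈ F ∧ ¬ pr T < W := fun T hT => Finset.mem_filter.mp hT
  have mGt : ∀ T ∈ Gt, T ∈ Gb ∧ ¬ pr T < 2 ^ y := fun T hT => Finset.mem_filter.mp hT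
  have mFt : ∀ T ∈ Ft, T ∈ Fb ∧ ¬ pr T < 2 ^ y := fun T hT => Finset.mem_filter.mp hT
  have mGm : ∀ T ∈ Gm, T ∈ Gb ∧ pr T < 2 ^ y := fun T hT => Finset.mem_filter.mp hT
  have mFm : ∀ T ∈ Fm, T ∈ Fb ∧ pr T < 2 ^ y := fun T hT => Finset.mem_filter.mp hT
  have hlogGs : ∑ T ∈ Gs, cw T ≤ LW :=
    sum_cw_small (fun T hT => hpr T (hGs8 T (mGs T hT).1)) (fun T hT => (mGs T hT).2.le)
  have hlogFs : ∑ T ∈ Fs, cw T ≤ LW :=
    sum_cw_small (fun T hT => hpr T (hFs T (mFs T hT).1)) (fun T hT => (mFs T hT).2.le)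
  -- piece 1
  have b1 : |∑ T ∈ Gs, ∑ U ∈ F, aa T U| ≤ LW * E := by
    have e1 : ∀ T ∈ Gs, ∑ U ∈ F, aa T U = cw T * (EPs (P8 z) (pr T : ℤ) - 1) := by
      intro T _
      rw [EPs_sub_one, Finset.mul_sum]
      refine Finset.sum_congr rfl fun U _ => ?_
      unfold aa; ring
    rw [Finset.sum_congr rfl e1]
    calc |∑ T ∈ Gs, cw T * (EPs (P8 z) (pr T : ℤ) - 1)|
        ≤ ∑ T ∈ Gs, cw T * E := by
          refine (Finset.abs_sum_le_sum_abs _ _).trans (Finset.sum_le_sum fun T hT => ?_)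
          rw [abs_mul, abs_of_nonneg (cw_nonneg T)]
          exact mul_le_mul_of_nonneg_left (EPs_le_W (Or.inl rfl) (hGF T (mGs T hT).1)
            (Int.natAbs_natCast _) (mGs T hT).2.le) (cw_nonneg T)
      _ = (∑ T ∈ Gs, cw T) * E := (Finset.sum_mul _ _ _).symm
      _ ≤ LW * E := mul_le_mul_of_nonneg_right hlogGs hE0
  -- piece 2
  have b2 : |∑ U ∈ Fs, ∑ T ∈ G, aa T U| ≤ LW * E := by
    have e1 : ∀ U ∈ Fs, ∑ T ∈ G, aa T U = cw U * (EPs P (fs U) - 1) := by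
      intro U hU
      rw [EPs_sub_one, Finset.mul_sum]
      refine Finset.sum_congr rfl fun T hT => ?_
      unfold aa
      rw [reciprocity (hGs8 T hT) (hFs U (mFs U hU).1)]
      ring
    rw [Finset.sum_congr rfl e1]
    calc |∑ U ∈ Fs, cw U * (EPs P (fs U) - 1)|
        ≤ ∑ U ∈ Fs, cw U * E := by
          refine (Finset.abs_sum_le_sum_abs _ _).trans (Finset.sum_le_sum fun U hU => ?_)
          rw [abs_mul, abs_of_nonneg (cw_nonneg U)]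
          exact mul_le_mul_of_nonneg_left (EPs_le_W hP (mFs U hU).1
            (fs_natAbs U) (mFs U hU).2.le) (cw_nonneg U)
      _ = (∑ U ∈ Fs, cw U) * E := (Finset.sum_mul _ _ _).symm
      _ ≤ LW * E := mul_le_mul_of_nonneg_right hlogFs hE0
  -- piece 3
  have b3 : |∑ T ∈ Gs, ∑ U ∈ Fs, aa T U| ≤ LW ^ 2 := by
    refine (abs_sum_aa_le _ _).trans ?_
    rw [sq]
    exact mul_le_mul hlogGs hlogFs (Finset.sum_nonneg fun U _ => cw_nonneg U) hLW0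
  -- tails
  have hY0 : (0 : ℝ) < (2 : ℝ) ^ (y - 1) := by positivity
  have hYlt : ∀ T : Finset ℕ, ¬ pr T < 2 ^ y → (2 : ℝ) ^ (y - 1) < ((pr T : ℕ) : ℝ) := by
    intro T hT
    push Not at hT
    have h1 : 2 ^ (y - 1) < 2 ^ y := Nat.pow_lt_pow_right (by norm_num) (by omega)
    have h2 : 2 ^ (y - 1) < pr T := lt_of_lt_of_le h1 hT
    exact_mod_cast h2
  have hQ0 : 0 ≤ QQ z := by
    unfold QQ
    exact Finset.prod_nonneg fun p _ => by have := cc_nonneg p; linarith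
  have tG : ∑ T ∈ Gt, cw T ≤ ((2 : ℝ) ^ (y - 1)) ^ (-(1 / Real.log z)) * (Real.exp (5 / 2) * QQ z) := by
    refine le_trans ?_ (tail_cw hz hsub hY0)
    refine Finset.sum_le_sum_of_subset_of_nonneg ?_ fun U _ _ => cw_nonneg U
    intro T hT
    rw [mem_filter, mem_powerset]
    exact ⟨hGs T (mGb T (mGt T hT).1).1, hYlt T (mGt T hT).2⟩
  have tF : ∑ T ∈ Ft, cw T ≤ ((2 : ℝ) ^ (y - 1)) ^ (-(1 / Real.log z)) * (Real.exp (5 / 2) * QQ z) := by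
    refine le_trans ?_ (tail_cw hz (Finset.Subset.refl _) hY0)
    refine Finset.sum_le_sum_of_subset_of_nonneg ?_ fun U _ _ => cw_nonneg U
    intro T hT
    rw [mem_filter, mem_powerset]
    exact ⟨hFs T (mFb T (mFt T hT).1).1, hYlt T (mFt T hT).2⟩
  have b4 : |∑ T ∈ Gt, ∑ U ∈ Fb, aa T U| ≤ 1 := by
    refine (abs_sum_aa_le _ _).trans (le_trans ?_ H2)
    refine mul_le_mul tG (sum_cw_le_QQ (Finset.Subset.refl _) fun T hT => hFs T (mFb T hT).1)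
      (Finset.sum_nonneg fun U _ => cw_nonneg U) (by positivity)
  have b5 : |∑ T ∈ Gm, ∑ U ∈ Ft, aa T U| ≤ 1 := by
    refine (abs_sum_aa_le _ _).trans (le_trans ?_ H2)
    rw [mul_comm]
    refine mul_le_mul tF (sum_cw_le_QQ hsub fun T hT => hGs T (mGb T (mGm T hT).1).1)
      (Finset.sum_nonneg fun U _ => cw_nonneg U) (by positivity)
  -- middle
  have hlog : ∀ T : Finset ℕ, T ⊆ P8 z → ¬ pr T < W → pr T < 2 ^ y → Nat.log 2 (pr T) ∈ Ico w y := by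
    intro T hT h1 h2
    have h0 := pr_pos (hpr T hT)
    rw [mem_Ico]
    constructor
    · push Not at h1
      exact (Nat.le_log_iff_pow_le (by norm_num) h0.ne').mpr h1
    · exact Nat.log_lt_of_lt_pow h0.ne' h2
  have b6 : |∑ T ∈ Gm, ∑ U ∈ Fm, aa T U| ≤ 1 := by
    refine mid_bound (z := z) (fun T hT => hGs8 T (mGb T (mGm T hT).1).1)
      (fun T hT => hFs T (mFb T (mFm T hT).1).1) hy H1 ?_ ?_
    · intro T hT
      exact hlog T (hGs8 T (mGb T (mGm T hT).1).1) (mGb T (mGm T hT).1).2 (mGm T hT).2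
    · intro T hT
      exact hlog T (hFs T (mFb T (mFm T hT).1).1) (mFb T (mFm T hT).1).2 (mFm T hT).2
  rw [d1, d2]
  rw [abs_le] at b1 b2 b3 b4 b5 b6 ⊢
  constructor <;> linarith [b1.1, b1.2, b2.1, b2.2, b3.1, b3.2, b4.1, b4.2, b5.1, b5.2, b6.1, b6.2]

end Pool.Agent.C1M
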