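import Mathlib
import Pool.Agent.C1M.FM9

set_option autoImplicit false

/-!
# Choice of parameters: `|RR| ≤ C (1 + log log z)^2`
-/

namespace Pool.Agent.C1M

open Finset Pool.Agent.HyperWeil

/-- Upper bound for the total mass. -/
lemma ZZ_le : ∃ C : ℝ, 0 ≤ C ∧ ∀ z : ℕ, 3 ≤ z → ZZ z ≤ Real.exp C * Real.log z := by
  obtain ⟨C, hC⟩ := PnMn.sumInvPrimes
  refine ⟨max C 0, le_max_right _ _, fun z hz => ?_⟩
  have hlz := one_le_log hz
  have hlz0 : 0 < Real.log z := by linarith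
  have h1 := hC z (by omega)
  rw [ZZ_eq_prod]
  have h2 : ∏ p ∈ P8 z, (1 + 1 / (p : ℝ)) ≤ Real.exp (∑ p ∈ P8 z, 1 / (p : ℝ)) := by
    rw [Real.exp_sum]
    refine Finset.prod_le_prod (fun p _ => by positivity) fun p _ => ?_
    have := Real.add_one_le_exp (1 / (p : ℝ))
    linarith
  have h3 : ∑ p ∈ P8 z, 1 / (p : ℝ) ≤ Real.log (Real.log z) + max C 0 := by
    calc ∑ p ∈ P8 z, 1 / (p : ℝ) ≤ ∑ p ∈ PR z, 1 / (p : ℝ) :=
          Finset.sum_le_sum_of_subset_of_nonneg (P8_subset_PR z) fun p _ _ => by positivity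
      _ ≤ Real.log (Real.log z) + C := h1
      _ ≤ _ := by have := le_max_left C 0; linarith
  calc ∏ p ∈ P8 z, (1 + 1 / (p : ℝ)) ≤ Real.exp (∑ p ∈ P8 z, 1 / (p : ℝ)) := h2
    _ ≤ Real.exp (Real.log (Real.log z) + max C 0) := Real.exp_le_exp.mpr h3
    _ = Real.exp (max C 0) * Real.log z := by
        rw [Real.exp_add, Real.exp_log hlz0]; ring

lemma QQ_le_ZZ (z : ℕ) : QQ z ≤ ZZ z := by
  rw [ZZ_eq_prod]
  unfold QQ
  refine Finset.prod_le_prod (fun p _ => by have := cc_nonneg p; linarith) fun p hp => ?_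
  have := cc_le_inv (mem_P8.mp hp).2.1.pos
  linarith

lemma QQ_nonneg (z : ℕ) : 0 ≤ QQ z := by
  unfold QQ
  exact Finset.prod_nonneg fun p _ => by have := cc_nonneg p; linarith

lemma ZZ_nonneg (z : ℕ) : 0 ≤ ZZ z := by
  rw [ZZ_eq_prod]
  exact Finset.prod_nonneg fun p _ => by positivity

/-- **Main estimate of the double sum.** -/
theorem RR_bound : ∃ C : ℝ, 0 < C ∧ ∀ z : ℕ, 3 ≤ z → ∀ P : Finset ℕ,
    (P = P8 z ∨ P = (P8 z).filter (fun p => p % 8 = 1)) →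
    |RR z P| ≤ C * (1 + Real.log (Real.log z)) ^ 2 := by
  obtain ⟨C0, hC0, hZ⟩ := ZZ_le
  set K : ℝ := 9 + 4 * C0 with hK
  set C1 : ℝ := 1280 * (Real.exp C0) ^ 4 * (K + 2) ^ 12 with hC1
  have hK9 : 9 ≤ K := by linarith
  have hexp1 : 1 ≤ Real.exp C0 := Real.one_le_exp hC0
  have hC11 : 1 ≤ C1 := by
    rw [hC1]
    have h1 : (1 : ℝ) ≤ (Real.exp C0) ^ 4 := one_le_pow₀ hexp1
    have h2 : (1 : ℝ) ≤ (K + 2) ^ 12 := one_le_pow₀ (by linarith)
    nlinarith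
  have hlC1 : 0 ≤ Real.log C1 := Real.log_nonneg hC11
  have hlog2 : (1 : ℝ) / 2 ≤ Real.log 2 := by have := Real.log_two_gt_d9; linarith
  have hlog2' : Real.log 2 ≤ 1 := by have := Real.log_two_lt_d9; linarith
  set M : ℝ := 30 + Real.log C1 with hM
  have hM30 : 30 ≤ M := by linarith
  have hexp11 : 1 ≤ Real.exp 11 := Real.one_le_exp (by norm_num)
  refine ⟨2 * M * (Real.exp 11 * (M + 5)) + M ^ 2 + 3, by positivity, fun z hz P hP => ?_⟩
  have hlz := one_le_log hz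
  set Lg := Real.log z with hLg
  have hLg0 : 0 < Lg := by linarith
  have hll : 0 ≤ Real.log Lg := Real.log_nonneg hlz
  set y : ℕ := ⌈K * Lg ^ 2⌉₊ + 1 with hy
  have hy1 : 1 ≤ y := by omega
  have hK0 : 0 ≤ K * Lg ^ 2 := by positivity
  have hyl : K * Lg ^ 2 ≤ ((y - 1 : ℕ) : ℝ) := by
    have : y - 1 = ⌈K * Lg ^ 2⌉₊ := by omega
    rw [this]; exact Nat.le_ceil _
  have hyu : (y : ℝ) ≤ (K + 2) * Lg ^ 2 := by
    have h1 : (⌈K * Lg ^ 2⌉₊ : ℝ) < K * Lg ^ 2 + 1 := Nat.ceil_lt_add_one hK0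
    have h2 : (y : ℝ) = (⌈K * Lg ^ 2⌉₊ : ℝ) + 1 := by rw [hy]; push_cast; ring
    rw [h2]
    nlinarith
  set w : ℕ := ⌈Real.log (C1 * Lg ^ 28) / Real.log 2⌉₊ with hw
  have hCL : 0 < C1 * Lg ^ 28 := by positivity
  have hCL1 : 1 ≤ C1 * Lg ^ 28 := by
    have : (1 : ℝ) ≤ Lg ^ 28 := one_le_pow₀ hlz
    nlinarith
  have hlogCL : 0 ≤ Real.log (C1 * Lg ^ 28) := Real.log_nonneg hCL1
  have hlogCL' : Real.log (C1 * Lg ^ 28) = Real.log C1 + 28 * Real.log Lg := by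
    rw [Real.log_mul (by positivity) (by positivity), Real.log_pow]
    push_cast; ring
  have hl2 : 0 < Real.log 2 := by linarith
  have hw1 : C1 * Lg ^ 28 ≤ 2 ^ w := by
    have h1 : Real.log (C1 * Lg ^ 28) / Real.log 2 ≤ w := Nat.le_ceil _
    rw [div_le_iff₀ hl2] at h1
    have h2 : Real.log (C1 * Lg ^ 28) ≤ Real.log ((2 : ℝ) ^ w) := by
      rw [Real.log_pow]; exact h1
    exact (Real.log_le_log_iff hCL (by positivity)).mp h2
  have hw2 : Real.log ((2 : ℝ) ^ w) ≤ Real.log C1 + 28 * Real.log Lg + 1 := by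
    rw [Real.log_pow, ← hlogCL']
    have h1 : (w : ℝ) < Real.log (C1 * Lg ^ 28) / Real.log 2 + 1 :=
      Nat.ceil_lt_add_one (div_nonneg hlogCL hl2.le)
    calc (w : ℝ) * Real.log 2 ≤ (Real.log (C1 * Lg ^ 28) / Real.log 2 + 1) * Real.log 2 := by
          gcongr
      _ = Real.log (C1 * Lg ^ 28) + Real.log 2 := by field_simp
      _ ≤ _ := by linarith
  -- the hypotheses
  have hZz := hZ z hz
  have H1 : 1280 * (ZZ z) ^ 4 * (y : ℝ) ^ 12 ≤ 2 ^ w := by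
    refine le_trans ?_ hw1
    have hZ0 := ZZ_nonneg z
    calc 1280 * (ZZ z) ^ 4 * (y : ℝ) ^ 12
        ≤ 1280 * (Real.exp C0 * Lg) ^ 4 * ((K + 2) * Lg ^ 2) ^ 12 := by gcongr
      _ = C1 * Lg ^ 28 := by rw [hC1]; ring
  have H2 : ((2 : ℝ) ^ (y - 1)) ^ (-(1 / Lg)) * (Real.exp (5 / 2) * QQ z) * QQ z ≤ 1 := by
    have hQ : QQ z ≤ Real.exp (C0 + Lg) := by
      refine (QQ_le_ZZ z).trans (hZz.trans ?_)
      rw [Real.exp_add]
      refine mul_le_mul_of_nonneg_left ?_ (Real.exp_pos _).le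
      have := Real.add_one_le_exp Lg
      linarith
    have hQ0 := QQ_nonneg z
    have h1 : ((2 : ℝ) ^ (y - 1)) ^ (-(1 / Lg)) ≤ Real.exp (-((5 / 2) + 2 * (C0 + Lg))) := by
      rw [Real.rpow_def_of_pos (by positivity), Real.log_pow, Real.exp_le_exp]
      have h2 : (5 / 2) + 2 * (C0 + Lg) ≤ ((y - 1 : ℕ) : ℝ) * Real.log 2 * (1 / Lg) := by
        calc (5 / 2) + 2 * (C0 + Lg) ≤ (9 / 2 + 2 * C0) * Lg := by nlinarith
          _ = (K * Lg ^ 2) * (1 / 2) * (1 / Lg) := by rw [hK]; field_simp; ring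
          _ ≤ ((y - 1 : ℕ) : ℝ) * Real.log 2 * (1 / Lg) := by gcongr
      linarith
    calc ((2 : ℝ) ^ (y - 1)) ^ (-(1 / Lg)) * (Real.exp (5 / 2) * QQ z) * QQ z
        ≤ Real.exp (-((5 / 2) + 2 * (C0 + Lg))) * (Real.exp (5 / 2) * Real.exp (C0 + Lg)) *
          Real.exp (C0 + Lg) := by gcongr
      _ = 1 := by
          rw [← Real.exp_add, ← Real.exp_add, ← Real.exp_add, ← Real.exp_zero]
          congr 1; ring
  have hmain := RR_le hz hP hy1 H1 H2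
  refine hmain.trans ?_
  have e1 : Real.log ((2 ^ w : ℕ) : ℝ) = Real.log ((2 : ℝ) ^ w) := by push_cast; rfl
  have e2 : Real.log ((8 * 2 ^ w : ℕ) : ℝ) ≤ 3 + Real.log ((2 : ℝ) ^ w) := by
    push_cast
    rw [Real.log_mul (by norm_num) (by positivity), show (8 : ℝ) = 2 ^ 3 by norm_num,
      Real.log_pow]
    push_cast
    linarith
  rw [e1]
  set LL := 1 + Real.log Lg with hLL
  have hLL1 : 1 ≤ LL := by linarith
  have f1 : 1 + Real.log ((2 : ℝ) ^ w) ≤ M * LL := by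
    have h3 : 28 * Real.log Lg ≤ M * Real.log Lg := mul_le_mul_of_nonneg_right (by linarith) hll
    have h4 : M * LL = M + M * Real.log Lg := by rw [hLL]; ring
    rw [h4]
    linarith
  have f2 : 3 + Real.log ((8 * 2 ^ w : ℕ) : ℝ) ≤ (M + 5) * LL := by
    have h3 : 28 * Real.log Lg ≤ (M + 5) * Real.log Lg :=
      mul_le_mul_of_nonneg_right (by linarith) hll
    have h4 : (M + 5) * LL = (M + 5) + (M + 5) * Real.log Lg := by rw [hLL]; ring
    rw [h4]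
    linarith
  have g0 : 0 ≤ Real.log ((2 : ℝ) ^ w) := Real.log_nonneg (one_le_pow₀ (by norm_num))
  have g1 : 0 ≤ Real.log ((8 * 2 ^ w : ℕ) : ℝ) := Real.log_natCast_nonneg _
  calc 2 * (1 + Real.log ((2 : ℝ) ^ w)) * (Real.exp 11 * (3 + Real.log ((8 * 2 ^ w : ℕ) : ℝ))) +
        (1 + Real.log ((2 : ℝ) ^ w)) ^ 2 + 3
      ≤ 2 * (M * LL) * (Real.exp 11 * ((M + 5) * LL)) + (M * LL) ^ 2 + 3 * LL ^ 2 := by
        have h3 : (1 : ℝ) ≤ LL ^ 2 := one_le_pow₀ hLL1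
        have h5 : 0 ≤ 1 + Real.log ((2 : ℝ) ^ w) := by linarith
        have h6 : 0 ≤ 3 + Real.log ((8 * 2 ^ w : ℕ) : ℝ) := by linarith
        have h7 : 0 ≤ M * LL := by positivity
        have h8 : 2 * (1 + Real.log ((2 : ℝ) ^ w)) * (Real.exp 11 * (3 + Real.log ((8 * 2 ^ w : ℕ) : ℝ)))
            ≤ 2 * (M * LL) * (Real.exp 11 * ((M + 5) * LL)) := by
          apply mul_le_mul (by linarith) (mul_le_mul_of_nonneg_left f2 (by positivity))
            (by positivity) (by positivity)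
        have h9 : (1 + Real.log ((2 : ℝ) ^ w)) ^ 2 ≤ (M * LL) ^ 2 := pow_le_pow_left₀ h5 f1 2
        linarith
    _ = (2 * M * (Real.exp 11 * (M + 5)) + M ^ 2 + 3) * LL ^ 2 := by ring

end Pool.Agent.C1M
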