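import Mathlib
import Pool.Agent.TLW.Defs
import Pool.Agent.C1M.FM1

set_option autoImplicit false

/-!
# First moment of the kernel over the diagonal: linear algebra
-/

namespace Pool.Agent.C1M

open Finset

open Pool.Agent.TLW (sg MM CC kerN KK zN K0 sy nn)

lemma sgm_add (x y : ZMod 2) : sg (x + y) = sg x * sg y := by
  have hx : x = 0 ∨ x = 1 := by revert x; decide
  have hy : y = 0 ∨ y = 1 := by revert y; decide
  have h10 : (1 : ZMod 2) ≠ 0 := by decide
  have h11 : (1 : ZMod 2) + 1 = 0 := by decide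
  rcases hx with rfl | rfl <;> rcases hy with rfl | rfl <;> simp [sg, h10, h11]

lemma sgm_sum {ι : Type*} (s : Finset ι) (f : ι → ZMod 2) :
    sg (∑ i ∈ s, f i) = ∏ i ∈ s, sg (f i) := by
  classical
  induction s using Finset.induction_on with
  | empty => simp [sg]
  | insert a s ha ih => rw [Finset.sum_insert ha, Finset.prod_insert ha, sgm_add, ih]

section LA

variable {ι : Type*} [Fintype ι] [DecidableEq ι]

lemma MM_mulVec (R : ι → ι → ZMod 2) (u y : ι → ZMod 2) (i : ι) :
    (MM R u).mulVec y i = u i * y i + ∑ j ∈ univ.erase i, R i j * y j := by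
  unfold MM Matrix.mulVec dotProduct
  rw [← Finset.add_sum_erase univ _ (Finset.mem_univ i)]
  congr 1
  · simp
  · refine Finset.sum_congr rfl fun j hj => ?_
    have : i ≠ j := (Finset.ne_of_mem_erase hj).symm
    simp [this]

lemma sum_one (y r : ZMod 2) :
    ∑ x : ZMod 2, (if x * y + r = 0 then (1 : ℝ) else 0) = if y = 0 then 1 + sg r else 1 := by
  have h10 : (1 : ZMod 2) ≠ 0 := by decide
  have h11 : (1 : ZMod 2) + 1 = 0 := by decide
  have hy : y = 0 ∨ y = 1 := by revert y; decide
  have hr : r = 0 ∨ r = 1 := by revert r; decide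
  have hs : ∀ f : ZMod 2 → ℝ, ∑ x : ZMod 2, f x = f 0 + f 1 := by
    intro f
    exact Fin.sum_univ_two f
  have h20 : (2 : ZMod 2) = 0 := by decide
  rw [hs]
  rcases hy with rfl | rfl <;> rcases hr with rfl | rfl <;> norm_num [sg, h10, h11] <;> decide

lemma sum_u_count (R : ι → ι → ZMod 2) (y : ι → ZMod 2) :
    ∑ u : ι → ZMod 2, (if (MM R u).mulVec y = 0 then (1 : ℝ) else 0)
      = ∏ i ∈ univ.filter (fun i => y i = 0), (1 + sg (∑ j ∈ univ.erase i, R i j * y j)) := by
  have h1 : ∀ u : ι → ZMod 2, (if (MM R u).mulVec y = 0 then (1 : ℝ) else 0)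
      = ∏ i, (if u i * y i + (∑ j ∈ univ.erase i, R i j * y j) = 0 then (1 : ℝ) else 0) := by
    intro u
    rw [Finset.prod_ite_zero]
    simp only [Finset.prod_const_one]
    congr 1
    rw [funext_iff]
    simp only [MM_mulVec, Pi.zero_apply, Finset.mem_univ, true_imp_iff]
  rw [Finset.sum_congr rfl fun u _ => h1 u]
  have h2 := Finset.prod_univ_sum (fun _ : ι => (univ : Finset (ZMod 2)))
    (fun i x => (if x * y i + (∑ j ∈ univ.erase i, R i j * y j) = 0 then (1 : ℝ) else 0))
  rw [Fintype.piFinset_univ] at h2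
  rw [← h2, Finset.prod_filter]
  refine Finset.prod_congr rfl fun i _ => ?_
  rw [sum_one]

/-- number of kernel vectors satisfying a condition, summed over the diagonal -/
lemma sum_u_card (R : ι → ι → ZMod 2) (P : (ι → ZMod 2) → Prop) [DecidablePred P] :
    ∑ u : ι → ZMod 2, (((univ.filter fun y : ι → ZMod 2 => P y ∧ (MM R u).mulVec y = 0).card : ℕ) : ℝ)
      = ∑ y ∈ univ.filter P, ∏ i ∈ univ.filter (fun i => y i = 0),
        (1 + sg (∑ j ∈ univ.erase i, R i j * y j)) := by
  have h1 : ∀ u : ι → ZMod 2,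
      (((univ.filter fun y : ι → ZMod 2 => P y ∧ (MM R u).mulVec y = 0).card : ℕ) : ℝ)
      = ∑ y ∈ univ.filter P, (if (MM R u).mulVec y = 0 then (1 : ℝ) else 0) := by
    intro u
    rw [← Finset.filter_filter, Finset.card_filter]
    push_cast
    rfl
  rw [Finset.sum_congr rfl fun u _ => h1 u, Finset.sum_comm]
  refine Finset.sum_congr rfl fun y _ => ?_
  rw [sum_u_count]

/-- The augmented matrix has at most twice as many kernel vectors. -/
lemma kerN_CC_le (R : ι → ι → ZMod 2) (s l u : ι → ZMod 2) (L : ZMod 2) :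
    (kerN (CC R s l u L) : ℝ)
      ≤ 2 * (((univ.filter fun y : ι → ZMod 2 => (MM R u).mulVec y = 0).card : ℕ) : ℝ) := by
  classical
  set k := (univ.filter fun y : ι → ZMod 2 => (MM R u).mulVec y = 0).card with hk
  have hrow : ∀ x : Option ι → ZMod 2, (CC R s l u L).mulVec x = 0 →
      ∀ i, (MM R u).mulVec (fun j => x (some j)) i = - (l i * x none) := by
    intro x hx i
    have h1 : (CC R s l u L).mulVec x (some i) = 0 := by rw [hx]; rfl
    have h2 : (CC R s l u L).mulVec x (some i)
        = l i * x none + (MM R u).mulVec (fun j => x (some j)) i := by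
      unfold Matrix.mulVec dotProduct
      rw [Fintype.sum_option]
      rfl
    rw [h2] at h1
    exact (neg_eq_of_add_eq_zero_right h1).symm
  have hA : ∀ t : ZMod 2,
      ((univ.filter fun x : Option ι → ZMod 2 => (CC R s l u L).mulVec x = 0).filter
        (fun x => x none = t)).card ≤ k := by
    intro t
    rcases ((univ.filter fun x : Option ι → ZMod 2 => (CC R s l u L).mulVec x = 0).filter
        (fun x => x none = t)).eq_empty_or_nonempty with he | ⟨x0, hx0⟩
    · rw [he]; simp
    · rw [mem_filter, mem_filter] at hx0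
      refine Finset.card_le_card_of_injOn (fun x => fun j => x (some j) - x0 (some j)) ?_ ?_
      · intro x hx
        rw [Finset.mem_coe, mem_filter, mem_filter] at hx
        rw [Finset.mem_coe, mem_filter]
        refine ⟨mem_univ _, ?_⟩
        change (MM R u).mulVec ((fun j => x (some j)) - fun j => x0 (some j)) = 0
        rw [Matrix.mulVec_sub]
        funext i
        rw [Pi.sub_apply, hrow x hx.1.2 i, hrow x0 hx0.1.2 i, hx.2, hx0.2]
        simp
      · intro x hx x' hx' h
        rw [Finset.mem_coe, mem_filter] at hx hx'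
        funext j
        rcases j with _ | j
        · rw [hx.2, hx'.2]
        · have := congrFun h j
          simp only at this
          exact sub_left_injective this
  unfold kerN
  have hsplit : (univ.filter fun x : Option ι → ZMod 2 => (CC R s l u L).mulVec x = 0).card
      = ∑ t : ZMod 2, ((univ.filter fun x : Option ι → ZMod 2 => (CC R s l u L).mulVec x = 0).filter
        (fun x => x none = t)).card := by
    exact Finset.card_eq_sum_card_fiberwise (fun x _ => mem_univ _)
  have h3 : (univ.filter fun x : Option ι → ZMod 2 => (CC R s l u L).mulVec x = 0).card ≤ 2 * k := by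
    rw [hsplit]
    calc _ ≤ ∑ _t : ZMod 2, k := Finset.sum_le_sum fun t _ => hA t
      _ = 2 * k := by
          rw [Finset.sum_const, smul_eq_mul]
          congr 1
  exact_mod_cast h3

lemma KK_le (R : ι → ι → ZMod 2) (s l : ι → ZMod 2) :
    KK R s l ≤ 2 * ((∑ u : ι → ZMod 2,
      (((univ.filter fun y : ι → ZMod 2 => True ∧ (MM R u).mulVec y = 0).card : ℕ) : ℝ)) /
        2 ^ Fintype.card ι) := by
  unfold KK
  rw [pow_succ, div_le_iff₀ (by positivity)]
  have h1 : ∑ u : ι → ZMod 2, ∑ L : ZMod 2, (kerN (CC R s l u L) : ℝ)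
      ≤ ∑ u : ι → ZMod 2, (4 : ℝ) *
        (((univ.filter fun y : ι → ZMod 2 => True ∧ (MM R u).mulVec y = 0).card : ℕ) : ℝ) := by
    refine Finset.sum_le_sum fun u _ => ?_
    have hs : ∀ f : ZMod 2 → ℝ, ∑ x : ZMod 2, f x = f 0 + f 1 := fun f => Fin.sum_univ_two f
    rw [hs]
    have h0 := kerN_CC_le R s l u 0
    have h1 := kerN_CC_le R s l u 1
    simp only [true_and]
    linarith
  refine h1.trans (le_of_eq ?_)
  rw [← Finset.mul_sum]
  field_simp
  ring

end LA

/-! ### Index sets of primes -/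

lemma jac_pr (T : Finset ℕ) (q : ℕ) :
    jacobiSym ((pr T : ℕ) : ℤ) q = ∏ p ∈ T, jacobiSym (p : ℤ) q := by
  unfold pr
  induction T using Finset.induction_on with
  | empty => simp [jacobiSym.one_left]
  | insert a s ha ih =>
    rw [Finset.prod_insert ha, Finset.prod_insert ha, ← ih]
    push_cast
    rw [jacobiSym.mul_left]

lemma sg_sy {p q : ℕ} (hp : p.Prime) (hq : q.Prime) (hne : p ≠ q) :
    sg (sy q p) = (jacobiSym (p : ℤ) q : ℝ) := by
  unfold sy sg
  have h0 : jacobiSym (p : ℤ) q ≠ 0 := by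
    intro h
    rw [jacobiSym.eq_zero_iff] at h
    apply h.2
    rw [Int.gcd_natCast_natCast]
    exact (Nat.coprime_primes hp hq).mpr hne
  have h10 : (1 : ZMod 2) ≠ 0 := by decide
  rcases jacobiSym.trichotomy (p : ℤ) q with h | h | h
  · exact absurd h h0
  · rw [h]; norm_num
  · rw [h]; norm_num

/-- Functions on `S` with values in `ZMod 2` correspond to subsets of `S`. -/
lemma sum_fun_eq_sum_powerset (S : Finset ℕ) (P : ({x // x ∈ S} → ZMod 2) → Prop) [DecidablePred P]
    (F : ({x // x ∈ S} → ZMod 2) → ℝ) :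
    ∑ y ∈ univ.filter P, F y
      = ∑ T ∈ S.powerset.filter (fun T => P (fun i => if (i : ℕ) ∈ T then 1 else 0)),
        F (fun i => if (i : ℕ) ∈ T then 1 else 0) := by
  classical
  have h10 : (1 : ZMod 2) ≠ 0 := by decide
  have key : ∀ y : {x // x ∈ S} → ZMod 2,
      (fun i : {x // x ∈ S} => if (i : ℕ) ∈ (univ.filter (fun i => y i = 1)).map
        (Function.Embedding.subtype _) then (1 : ZMod 2) else 0) = y := by
    intro y
    funext i
    have hmem : ((i : ℕ) ∈ (univ.filter (fun i => y i = 1)).map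
        (Function.Embedding.subtype (fun x => x ∈ S))) ↔ y i = 1 := by
      rw [Finset.mem_map]
      constructor
      · rintro ⟨j, hj, hji⟩
        have : j = i := Subtype.ext hji
        rw [← this]
        exact (mem_filter.mp hj).2
      · intro h
        exact ⟨i, mem_filter.mpr ⟨mem_univ _, h⟩, rfl⟩
    have h2 : y i = 0 ∨ y i = 1 := by
      generalize y i = t
      revert t; decide
    by_cases h : y i = 1
    · rw [if_pos (hmem.mpr h), h]
    · rw [if_neg (fun hh => h (hmem.mp hh))]
      rcases h2 with h3 | h3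
      · exact h3.symm
      · exact absurd h3 h
  refine Finset.sum_nbij' (fun y => (univ.filter (fun i => y i = 1)).map
    (Function.Embedding.subtype _)) (fun T => fun i => if (i : ℕ) ∈ T then 1 else 0) ?_ ?_ ?_ ?_ ?_
  · intro y hy
    rw [mem_filter] at hy
    rw [mem_filter, mem_powerset]
    refine ⟨?_, ?_⟩
    · intro p hp
      obtain ⟨j, _, hj⟩ := Finset.mem_map.mp hp
      rw [← hj]; exact j.2
    · rw [key y]; exact hy.2
  · intro T hT
    rw [mem_filter] at hT
    exact mem_filter.mpr ⟨mem_univ _, hT.2⟩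
  · intro y _
    exact key y
  · intro T hT
    rw [mem_filter, mem_powerset] at hT
    ext p
    rw [Finset.mem_map]
    constructor
    · rintro ⟨j, hj, hji⟩
      rw [mem_filter] at hj
      have h3 : (if (j : ℕ) ∈ T then (1 : ZMod 2) else 0) = 1 := hj.2
      by_contra hn
      have : (j : ℕ) ∉ T := by
        intro h; apply hn; rw [← hji]; exact h
      rw [if_neg this] at h3
      exact h10 h3.symm
    · intro hp
      refine ⟨⟨p, hT.1 hp⟩, mem_filter.mpr ⟨mem_univ _, ?_⟩, rfl⟩
      simp only [hp, if_true]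
  · intro y _
    rw [key y]

/-- The product for the indicator of `T`. -/
lemma prod_ind {S T : Finset ℕ} (hS : ∀ p ∈ S, p.Prime) (hT : T ⊆ S) :
    ∏ i ∈ univ.filter (fun i : {x // x ∈ S} => (if (i : ℕ) ∈ T then (1 : ZMod 2) else 0) = 0),
        (1 + sg (∑ j ∈ univ.erase i, sy (i : ℕ) (j : ℕ) * (if (j : ℕ) ∈ T then (1 : ZMod 2) else 0)))
      = ∏ q ∈ S \ T, (1 + (jacobiSym ((pr T : ℕ) : ℤ) q : ℝ)) := by
  classical
  have h10 : (1 : ZMod 2) ≠ 0 := by decide
  have e1 : ∀ i ∈ univ.filter (fun i : {x // x ∈ S} => (if (i : ℕ) ∈ T then (1 : ZMod 2) else 0) = 0),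
      (1 + sg (∑ j ∈ univ.erase i, sy (i : ℕ) (j : ℕ) * (if (j : ℕ) ∈ T then (1 : ZMod 2) else 0)))
      = (fun q : ℕ => 1 + (jacobiSym ((pr T : ℕ) : ℤ) q : ℝ)) (i : ℕ) := by
    intro i hi
    rw [mem_filter] at hi
    have hiT : (i : ℕ) ∉ T := by
      intro h
      rw [if_pos h] at hi
      exact h10 hi.2
    simp only
    congr 1
    rw [sgm_sum]
    have e2 : ∏ j ∈ univ.erase i, sg (sy (i : ℕ) (j : ℕ) * (if (j : ℕ) ∈ T then (1 : ZMod 2) else 0))
        = ∏ j : {x // x ∈ S}, (if (j : ℕ) ∈ T then (jacobiSym ((j : ℕ) : ℤ) (i : ℕ) : ℝ) else 1) := by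
      rw [← Finset.mul_prod_erase univ _ (Finset.mem_univ i), if_neg hiT, one_mul]
      refine Finset.prod_congr rfl fun j hj => ?_
      have hne : j ≠ i := Finset.ne_of_mem_erase hj
      split_ifs with h
      · rw [mul_one]
        exact sg_sy (hS _ j.2) (hS _ i.2) (fun hh => hne (Subtype.ext hh))
      · rw [mul_zero]; simp [sg]
    rw [e2, Finset.prod_coe_sort_eq_attach] 
    rw [Finset.prod_attach S (fun j => if j ∈ T then (jacobiSym (j : ℤ) (i : ℕ) : ℝ) else 1)]
    rw [Finset.prod_ite_mem, Finset.inter_eq_right.mpr hT, jac_pr]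
    push_cast
    rfl
  rw [Finset.prod_congr rfl e1]
  have hmap : (univ.filter (fun i : {x // x ∈ S} => (if (i : ℕ) ∈ T then (1 : ZMod 2) else 0) = 0)).map
      (Function.Embedding.subtype _) = S \ T := by
    ext p
    rw [Finset.mem_map, Finset.mem_sdiff]
    constructor
    · rintro ⟨j, hj, hji⟩
      rw [mem_filter] at hj
      have hjp : (j : ℕ) = p := hji
      refine ⟨by rw [← hjp]; exact j.2, fun hp => ?_⟩
      rw [← hjp] at hp
      have h3 := hj.2
      rw [if_pos hp] at h3
      exact h10 h3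
    · rintro ⟨h1, h2⟩
      refine ⟨⟨p, h1⟩, mem_filter.mpr ⟨mem_univ _, ?_⟩, rfl⟩
      simp only [h2, if_false]
  rw [← hmap, Finset.prod_map]
  rfl

/-- **The mean of a restricted kernel count as a sum over subsets.** -/
theorem mean_card (S : Finset ℕ) (hS : ∀ p ∈ S, p.Prime) (P : ({x // x ∈ S} → ZMod 2) → Prop)
    [DecidablePred P] :
    (∑ u : {x // x ∈ S} → ZMod 2, (((univ.filter fun y : {x // x ∈ S} → ZMod 2 =>
      P y ∧ (MM (fun i j : {x // x ∈ S} => sy (i : ℕ) (j : ℕ)) u).mulVec y = 0).card : ℕ) : ℝ)) /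
        2 ^ Fintype.card {x // x ∈ S}
      = ((2 : ℝ) ^ S.card)⁻¹ *
        ∑ T ∈ S.powerset.filter (fun T => P (fun i => if (i : ℕ) ∈ T then 1 else 0)),
          ∏ q ∈ S \ T, (1 + (jacobiSym ((pr T : ℕ) : ℤ) q : ℝ)) := by
  rw [sum_u_card, sum_fun_eq_sum_powerset S P, Fintype.card_coe, div_eq_inv_mul]
  congr 1
  refine Finset.sum_congr rfl fun T hT => ?_
  rw [mem_filter, mem_powerset] at hT
  exact prod_ind hS hT.1

end Pool.Agent.C1M
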